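import Pool.Agent.Helper17.SL.GoalsG

/-!
# Project SL: the general theorem from the rank bound and the zero estimate
-/

namespace Pool.Agent.Helper17.SL

open Pool.Agent.Helper51.SigLeo Pool.Agent.Helper51.SixExp NumberField Module MvPolynomial Filter

universe u v w x y z

section algebra

variable {K : Type u} {I : Type x} {J : Type y} [Field K] [Fintype I] [Fintype J] {g : ℕ}

theorem eval_monomial' (D : Dat K I J g) (d : I ⊕ J →₀ ℕ) (c : K) (a : Fin g → ℤ) :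
    eval (D.pt a) (monomial d c) = c * D.mono d a := by
  rw [eval_monomial, Finsupp.prod_fintype _ _ (fun i ↦ pow_zero _), Fintype.prod_sum_type]
  rfl

/-- The set of exponents of `F_x` is finite. -/
theorem finite_exps (T S x : ℕ) (hT : 1 ≤ T) (hS : 1 ≤ S) :
    {d : I ⊕ J →₀ ℕ | wt T S d ≤ x * (S * T)}.Finite := by
  classical
  refine Set.Finite.subset (Set.finite_Iic (Finsupp.equivFunOnFinite.symm
    (fun _ ↦ x * (S * T)))) ?_
  intro d hd
  rw [Set.mem_Iic]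
  intro q
  rw [Finsupp.equivFunOnFinite_symm_apply_apply]
  refine le_trans ?_ hd
  unfold wt
  rcases q with i | j
  · calc d (Sum.inl i) ≤ ∑ i, d (Sum.inl i) :=
          Finset.single_le_sum (f := fun i ↦ d (Sum.inl i)) (fun _ _ ↦ Nat.zero_le _)
            (Finset.mem_univ i)
      _ ≤ S * ∑ i, d (Sum.inl i) := Nat.le_mul_of_pos_left _ hS
      _ ≤ _ := Nat.le_add_right _ _
  · calc d (Sum.inr j) ≤ ∑ j, d (Sum.inr j) :=
          Finset.single_le_sum (f := fun j ↦ d (Sum.inr j)) (fun _ _ ↦ Nat.zero_le _)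
            (Finset.mem_univ j)
      _ ≤ T * ∑ j, d (Sum.inr j) := Nat.le_mul_of_pos_left _ hT
      _ ≤ _ := Nat.le_add_left _ _

/-- If the dimension of `F_1` exceeds all the orders of nonzero determinants, there is a nonzero
polynomial of `F_1` vanishing on the box. -/
theorem exists_vanishing (hDET : S_DETP.{u, 0}) (D : Dat K I J g) (T S B : ℕ) (hT : 1 ≤ T)
    (hS : 1 ≤ S) (m : ℝ)
    (hm : ∀ (l : ℕ) (t : Fin l → (I ⊕ J →₀ ℕ)) (a : Fin l → Fin g → ℤ),
      (∀ i, wt T S (t i) ≤ S * T) → (∀ j r, |a j r| ≤ B) →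
      Matrix.det (fun i j ↦ D.mono (t i) (a j)) ≠ 0 → (l : ℝ) ≤ m)
    (hl : m < finrank K (Fil K I J T S 1)) :
    ∃ f : MvPolynomial (I ⊕ J) K, f ≠ 0 ∧ f ∈ Fil K I J T S 1 ∧
      ∀ a : Fin g → ℤ, (∀ i, |a i| ≤ B) → eval (D.pt a) f = 0 := by
  classical
  by_contra hcon
  push Not at hcon
  have hfin := finite_exps (I := I) (J := J) T S 1 hT hS
  let bas := basisRestrictSupport K {d : I ⊕ J →₀ ℕ | wt T S d ≤ 1 * (S * T)}
  have := hfin.fintype
  set l := Fintype.card {d : I ⊕ J →₀ ℕ | wt T S d ≤ 1 * (S * T)} with hldef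
  have hdim : finrank K (Fil K I J T S 1) = l := finrank_eq_card_basis bas
  let en : {d : I ⊕ J →₀ ℕ | wt T S d ≤ 1 * (S * T)} ≃ Fin l := Fintype.equivFin _
  let t : Fin l → (I ⊕ J →₀ ℕ) := fun i ↦ (en.symm i : I ⊕ J →₀ ℕ)
  have htinj : Function.Injective t := fun i j hij ↦ en.symm.injective (Subtype.ext hij)
  have ht : ∀ i, wt T S (t i) ≤ S * T := fun i ↦ by
    have h1 : wt T S (t i) ≤ 1 * (S * T) := (en.symm i).2
    rwa [one_mul] at h1
  have hli : LinearIndependent K (fun (i : Fin l) (a : {a : Fin g → ℤ // ∀ r, |a r| ≤ B}) ↦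
      D.mono (t i) a.1) := by
    rw [Fintype.linearIndependent_iff]
    intro c hc
    have h1 : ∑ i, monomial (t i) (c i) = 0 := by
      by_contra hne
      obtain ⟨a, ha, hane⟩ := hcon _ hne (by
        apply Submodule.sum_mem
        intro i _
        show monomial (t i) (c i) ∈ restrictSupport K _
        rw [monomial_mem_restrictSupport]
        left
        show wt T S (t i) ≤ 1 * (S * T)
        rw [one_mul]
        exact ht i)
      apply hane
      rw [map_sum]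
      have h2 := congrFun hc ⟨a, ha⟩
      rw [Finset.sum_apply] at h2
      refine Eq.trans (Finset.sum_congr rfl fun i _ ↦ ?_) h2
      rw [eval_monomial']
      rfl
    intro i
    have h3 := congrArg (coeff (t i)) h1
    rw [coeff_sum, coeff_zero, Finset.sum_eq_single i] at h3
    · simpa using h3
    · intro j _ hj
      rw [coeff_monomial, if_neg]
      intro h4
      exact hj (htinj h4)
    · intro h; exact absurd (Finset.mem_univ i) h
  obtain ⟨a, ha⟩ := hDET K _ l _ hli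
  have h5 := hm l t (fun j ↦ (a j).1) ht (fun j ↦ (a j).2) ha
  rw [hdim] at hl
  linarith

end algebra

section numeric

/-- The parameters. -/
theorem params (β : ℝ) (hβ0 : 0 < β) (hβ1 : β < 1) (d : ℕ) (hd : 1 ≤ d) :
    ∀ᶠ U : ℕ in atTop, ∃ S B : ℕ, 1 ≤ S ∧ S ≤ U ∧ 1 ≤ B ∧ d * B ≤ U ∧ S * (d * B) ≤ U ∧
      (U : ℝ) ^ β / 2 ≤ S ∧ (S : ℝ) ≤ (U : ℝ) ^ β ∧ (U : ℝ) ^ (1 - β) / (2 * d) ≤ B := by
  have h1 : ∀ᶠ U : ℕ in atTop, (1 : ℝ) ≤ U := by
    filter_upwards [eventually_ge_atTop 1] with U hU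
    exact_mod_cast hU
  have h2 : ∀ᶠ U : ℕ in atTop, (2 * d : ℝ) ≤ (U : ℝ) ^ (1 - β) := by
    have := (tendsto_rpow_atTop (y := 1 - β) (by linarith)).comp tendsto_natCast_atTop_atTop
    exact this.eventually_ge_atTop _
  filter_upwards [h1, h2] with U hU1 hU2
  have hdpos : (0 : ℝ) < d := by exact_mod_cast hd
  have hUpos : (0 : ℝ) < U := by linarith
  have hβge : (1 : ℝ) ≤ (U : ℝ) ^ β := Real.one_le_rpow hU1 hβ0.le
  have hβle : (U : ℝ) ^ β ≤ U := by
    calc (U : ℝ) ^ β ≤ (U : ℝ) ^ (1 : ℝ) := Real.rpow_le_rpow_of_exponent_le hU1 hβ1.le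
      _ = U := Real.rpow_one _
  have hαle : (U : ℝ) ^ (1 - β) ≤ U := by
    calc (U : ℝ) ^ (1 - β) ≤ (U : ℝ) ^ (1 : ℝ) :=
          Real.rpow_le_rpow_of_exponent_le hU1 (by linarith)
      _ = U := Real.rpow_one _
  have hfl : ∀ z : ℝ, 1 ≤ z → z / 2 ≤ (⌊z⌋₊ : ℝ) := by
    intro z hz
    have h3 : z < ⌊z⌋₊ + 1 := Nat.lt_floor_add_one z
    have h4 : 1 ≤ ⌊z⌋₊ := Nat.one_le_floor_iff z |>.mpr hz
    have h5 : (1 : ℝ) ≤ (⌊z⌋₊ : ℝ) := by exact_mod_cast h4
    linarith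
  have hz1 : 1 ≤ (U : ℝ) ^ (1 - β) / d := by
    rw [le_div_iff₀ hdpos]; linarith
  have hS : ((⌊(U : ℝ) ^ β⌋₊ : ℕ) : ℝ) ≤ (U : ℝ) ^ β := Nat.floor_le (by linarith)
  have hB : ((⌊(U : ℝ) ^ (1 - β) / d⌋₊ : ℕ) : ℝ) ≤ (U : ℝ) ^ (1 - β) / d :=
    Nat.floor_le (by linarith)
  have hdB : (d : ℝ) * (⌊(U : ℝ) ^ (1 - β) / d⌋₊ : ℝ) ≤ (U : ℝ) ^ (1 - β) := by
    calc (d : ℝ) * (⌊(U : ℝ) ^ (1 - β) / d⌋₊ : ℝ) ≤ d * ((U : ℝ) ^ (1 - β) / d) :=
          mul_le_mul_of_nonneg_left hB hdpos.le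
      _ = _ := by field_simp
  refine ⟨⌊(U : ℝ) ^ β⌋₊, ⌊(U : ℝ) ^ (1 - β) / d⌋₊, Nat.one_le_floor_iff _ |>.mpr hβge, ?_,
    Nat.one_le_floor_iff _ |>.mpr hz1, ?_, ?_, hfl _ hβge, hS, ?_⟩
  · have : ((⌊(U : ℝ) ^ β⌋₊ : ℕ) : ℝ) ≤ (U : ℝ) := hS.trans hβle
    exact_mod_cast this
  · have : (((d * ⌊(U : ℝ) ^ (1 - β) / d⌋₊ : ℕ)) : ℝ) ≤ (U : ℝ) := by
      push_cast
      exact hdB.trans hαle
    exact_mod_cast this
  · have : (((⌊(U : ℝ) ^ β⌋₊ * (d * ⌊(U : ℝ) ^ (1 - β) / d⌋₊) : ℕ)) : ℝ) ≤ (U : ℝ) := by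
      push_cast
      calc (⌊(U : ℝ) ^ β⌋₊ : ℝ) * (d * (⌊(U : ℝ) ^ (1 - β) / d⌋₊ : ℝ))
          ≤ (U : ℝ) ^ β * (U : ℝ) ^ (1 - β) := by
            apply mul_le_mul hS hdB (by positivity) (by positivity)
        _ = U := by
            rw [← Real.rpow_add hUpos]; simp
    exact_mod_cast this
  · have := hfl _ hz1
    calc (U : ℝ) ^ (1 - β) / (2 * d) = (U : ℝ) ^ (1 - β) / d / 2 := by field_simp
      _ ≤ _ := this

/-- Growth: `U^e > c (U log U)^N` if `e > N`. -/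
theorem growth (N : ℕ) (e c : ℝ) (he : (N : ℝ) < e) :
    ∀ᶠ U : ℕ in atTop, c * ((U : ℝ) * Real.log U) ^ N < (U : ℝ) ^ e := by
  have h1 : Real.log =o[atTop] fun x : ℝ ↦ x ^ ((e - N) / (2 * (N + 1))) :=
    isLittleO_log_rpow_atTop (by
      have : (0 : ℝ) < N + 1 := by positivity
      have : 0 < e - N := by linarith
      positivity)
  have h2 := (h1.bound (c := 1) one_pos)
  have h3 : ∀ᶠ x : ℝ in atTop, |c| + 1 ≤ x ^ ((e - N) / 2) :=
    (tendsto_rpow_atTop (y := (e - N) / 2) (by linarith)).eventually_ge_atTop _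
  have h4 : ∀ᶠ x : ℝ in atTop, c * (x * Real.log x) ^ N < x ^ e := by
    filter_upwards [h2, h3, eventually_ge_atTop (1 : ℝ)] with x hx1 hx2 hx3
    have hx0 : 0 < x := by linarith
    have hlog0 : 0 ≤ Real.log x := Real.log_nonneg hx3
    rw [one_mul, Real.norm_of_nonneg hlog0, Real.norm_of_nonneg (by positivity)] at hx1
    have hN1 : (0 : ℝ) < N + 1 := by positivity
    have h5 : (Real.log x) ^ N ≤ x ^ ((e - N) / 2) := by
      calc (Real.log x) ^ N ≤ (x ^ ((e - N) / (2 * (N + 1)))) ^ N :=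
            pow_le_pow_left₀ hlog0 hx1 _
        _ = x ^ ((e - N) / (2 * (N + 1)) * N) := by
            rw [← Real.rpow_natCast, ← Real.rpow_mul hx0.le]
        _ ≤ x ^ ((e - N) / 2) := by
            apply Real.rpow_le_rpow_of_exponent_le hx3
            have h6 : (e - N) / (2 * (N + 1)) * N = (e - N) / 2 * (N / (N + 1)) := by
              field_simp
            rw [h6]
            have h7 : (N : ℝ) / (N + 1) ≤ 1 := by
              rw [div_le_one hN1]; linarith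
            have h8 : 0 ≤ (e - N) / 2 := by linarith
            calc (e - N) / 2 * (N / (N + 1)) ≤ (e - N) / 2 * 1 :=
                  mul_le_mul_of_nonneg_left h7 h8
              _ = _ := mul_one _
    have h9 : c * (x * Real.log x) ^ N ≤ |c| * (x ^ (N : ℝ) * x ^ ((e - N) / 2)) := by
      rw [mul_pow, Real.rpow_natCast]
      calc c * (x ^ N * Real.log x ^ N) ≤ |c| * (x ^ N * Real.log x ^ N) :=
            mul_le_mul_of_nonneg_right (le_abs_self c) (by positivity)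
        _ ≤ _ := by gcongr
    have h10 : x ^ e = (x ^ (N : ℝ) * x ^ ((e - N) / 2)) * x ^ ((e - N) / 2) := by
      rw [← Real.rpow_add hx0, ← Real.rpow_add hx0]; congr 1; ring
    rw [h10]
    have h11 : 0 < x ^ (N : ℝ) * x ^ ((e - N) / 2) := by positivity
    calc c * (x * Real.log x) ^ N ≤ |c| * (x ^ (N : ℝ) * x ^ ((e - N) / 2)) := h9
      _ < (x ^ (N : ℝ) * x ^ ((e - N) / 2)) * (|c| + 1) := by nlinarith
      _ ≤ _ := mul_le_mul_of_nonneg_left hx2 h11.le
  exact tendsto_natCast_atTop_atTop.eventually h4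

end numeric

section main

/-- The span of the vectors `X(a)` is the same for a lattice and for its rational span. -/
theorem spanX_eq {Ω : Type u} [Field Ω] [CharZero Ω] {V : Type w} [AddCommGroup V] [Module ℚ V]
    {I : Type x} {J : Type y} {g : ℕ} (X : I → V →ₗ[ℚ] Ω) (e : Basis (Fin g) ℚ V)
    (D : Dat Ω I J g) (hX : ∀ a i, D.X a i = X i (∑ r, (a r : ℚ) • e r))
    (G : Submodule ℤ (Fin g → ℤ)) :
    spanX X (Submodule.span ℚ {v : V | ∃ a ∈ G, v = ∑ r, (a r : ℚ) • e r}) = D.spanX G := by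
  apply le_antisymm
  · unfold spanX
    rw [Submodule.span_le]
    rintro z ⟨v, hv, rfl⟩
    induction hv using Submodule.span_induction with
    | mem v hv =>
      obtain ⟨a, ha, rfl⟩ := hv
      apply Submodule.subset_span
      exact ⟨a, ha, by funext i; rw [hX]⟩
    | zero =>
      have : (fun i ↦ X i 0) = (0 : I → Ω) := by funext i; simp
      rw [this]; exact zero_mem _
    | add v v' _ _ h h' =>
      have : (fun i ↦ X i (v + v')) = (fun i ↦ X i v) + fun i ↦ X i v' := by funext i; simp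
      rw [this]; exact add_mem h h'
    | smul q v _ h =>
      have : (fun i ↦ X i (q • v)) = (q : Ω) • fun i ↦ X i v := by
        funext i
        rw [Pi.smul_apply, map_smul, Rat.smul_def, smul_eq_mul]
      rw [this]; exact Submodule.smul_mem _ _ h
  · unfold Dat.spanX
    rw [Submodule.span_le]
    rintro z ⟨a, ha, rfl⟩
    apply Submodule.subset_span
    exact ⟨_, Submodule.subset_span ⟨a, ha, rfl⟩, by funext i; rw [hX]⟩

/-- Assembly of the general theorem. -/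
theorem gen (hRB : S_RB.{u, v, w, x, y}) (hZE : S_ZE.{u, x, y}) (hDET : S_DETP.{u, 0})
    (hRK1 : S_RK1.{w}) (hRK2 : S_RK2.{y}) (hZB : S_ZB.{u, x, y}) (hZC : S_ZC.{u, x, y}) :
    S_GEN.{u, v, w, x, y} := by
  classical
  intro p _ k _ _ _ _ _ Ω _ _ _ ι Λ V _ _ _ I J _ _ X Y N β hY hN hspan hβ0 hβ1 hlt
  obtain ⟨g, e, D, C, hC, hDX, hDY, hdet⟩ := hRB p k Ω ι Λ V I J X Y N hY hN hspan
  obtain ⟨c, hc⟩ := hZE g I J
  set nI := Fintype.card I with hnI
  set nJ := Fintype.card J with hnJ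
  have hg : finrank ℚ V = g := by rw [finrank_eq_card_basis e, Fintype.card_fin]
  have hd1 : 1 ≤ nI + nJ := by
    by_contra h
    have h1 : nI = 0 := by omega
    have h2 : nJ = 0 := by omega
    rw [h1, h2] at hlt
    have : (0 : ℝ) < N := by exact_mod_cast hN
    simp at hlt
    linarith
  set d := nI + nJ with hd
  have hdpos : (0 : ℝ) < d := by exact_mod_cast hd1
  -- the rational span of a subgroup of `ℤ ^ g`
  have htr : ∀ G : Submodule ℤ (Fin g → ℤ), ∃ E : Submodule ℚ V,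
      finrank ℚ E = finrank ℤ G ∧ finrank Ω (spanX X E) = finrank Ω (D.spanX G) ∧
      finrank ℚ (relY Y E) = finrank ℤ (D.rel G) := by
    intro G
    refine ⟨Submodule.span ℚ {v : V | ∃ a ∈ G, v = ∑ r, (a r : ℚ) • e r}, hRK1 V g e G,
      by rw [spanX_eq X e D hDX G], ?_⟩
    symm
    apply hRK2 J
    intro s
    constructor
    · intro hs v hv
      induction hv using Submodule.span_induction with
      | mem v hv =>
        obtain ⟨a, ha, rfl⟩ := hv
        exact (hDY a s).mp (hs a ha)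
      | zero => simp
      | add v v' _ _ h h' =>
        simp only [map_add, smul_add, Finset.sum_add_distrib, h, h', add_zero]
      | smul q v _ h =>
        have : ∀ j, (s j : ℚ) • Y j (q • v) = q • ((s j : ℚ) • Y j v) := fun j ↦ by
          rw [map_smul, smul_comm]
        simp only [this, ← Finset.smul_sum, h, smul_zero]
    · intro hs a ha
      exact (hDY a s).mpr (hs _ (Submodule.subset_span ⟨a, ha, rfl⟩))
  by_contra hcon
  push Not at hcon
  -- in terms of subgroups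
  have hG : ∀ G : Submodule ℤ (Fin g → ℤ),
      (finrank Ω (D.spanX G) ≠ nI ∨ finrank ℤ (D.rel G) ≠ 0) →
      ((nI - finrank Ω (D.spanX G) : ℕ) : ℝ) + β * finrank ℤ (D.rel G) <
        (1 - β) * ((g - finrank ℤ G : ℕ) : ℝ) := by
    intro G hG
    obtain ⟨E, h1, h2, h3⟩ := htr G
    have h4 := hcon E (by rw [h2, h3]; exact hG)
    rw [h1, h2, h3, hg] at h4
    have h5 : finrank Ω (D.spanX G) ≤ nI := by
      have := Submodule.finrank_le (D.spanX G)
      rwa [Module.finrank_fintype_fun_eq_card] at this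
    have h6 : finrank ℤ G ≤ g := by
      rw [← h1, ← hg]; exact Submodule.finrank_le E
    push_cast [Nat.cast_sub h5, Nat.cast_sub h6]
    exact h4
  -- the parameters
  have hev1 := params β hβ0 hβ1 d hd1
  have hev2 := growth N (nI + β * nJ) (C * ((d : ℝ) ^ d * 2 ^ nJ)) hlt
  have hev3 : ∀ᶠ U : ℕ in atTop, ∀ q ∈ (Finset.range (g + 1) ×ˢ Finset.range (nI + 1)) ×ˢ
      Finset.range (nJ + 1), (q.1.2 : ℝ) + β * q.2 < (1 - β) * q.1.1 →
      (c : ℝ) * (U : ℝ) ^ ((q.1.2 : ℝ) + β * q.2) <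
        ((U : ℝ) ^ (1 - β) / (2 * d)) ^ q.1.1 := by
    rw [Filter.eventually_all_finset]
    rintro ⟨⟨r, n⟩, m⟩ -
    by_cases hq : (n : ℝ) + β * m < (1 - β) * r
    · have h1 : ∀ᶠ U : ℕ in atTop, (c : ℝ) * (2 * d) ^ r <
          (U : ℝ) ^ ((1 - β) * r - (n + β * m)) := by
        have := (tendsto_rpow_atTop (y := (1 - β) * r - (n + β * m)) (by linarith)).comp
          tendsto_natCast_atTop_atTop
        exact this.eventually_gt_atTop _
      filter_upwards [h1, eventually_ge_atTop 1] with U hU hU1 _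
      have hU0 : (0 : ℝ) < U := by exact_mod_cast hU1
      have h2 : ((U : ℝ) ^ (1 - β) / (2 * d)) ^ r =
          (U : ℝ) ^ ((1 - β) * r) / (2 * d) ^ r := by
        rw [div_pow, Real.rpow_mul hU0.le, Real.rpow_natCast]
      rw [h2, lt_div_iff₀ (by positivity)]
      have h3 : (U : ℝ) ^ ((1 - β) * r) =
          (U : ℝ) ^ ((n : ℝ) + β * m) * (U : ℝ) ^ ((1 - β) * r - (n + β * m)) := by
        rw [← Real.rpow_add hU0]; congr 1; ring
      rw [h3]
      calc (c : ℝ) * (U : ℝ) ^ ((n : ℝ) + β * m) * (2 * d) ^ r =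
          (U : ℝ) ^ ((n : ℝ) + β * m) * (c * (2 * d) ^ r) := by ring
        _ < _ := mul_lt_mul_of_pos_left hU (by positivity)
    · exact Filter.Eventually.of_forall fun U h ↦ absurd h hq
  obtain ⟨U, ⟨S, B, hS1, hSU, hB1, hdBU, hSdB, hSlow, hSup, hBlow⟩, hU2, hU3, hUge⟩ :=
    (hev1.and (hev2.and (hev3.and (eventually_ge_atTop 2)))).exists
  have hU1 : 1 ≤ U := by omega
  have hU0 : (0 : ℝ) < U := by exact_mod_cast hU1
  -- the dimension of `F_1`
  have hdim : C * ((U : ℝ) * Real.log U) ^ N < finrank Ω (Fil Ω I J U S 1) := by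
    have h1 := hZB Ω I J ⊥ Finset.univ U S 1 hU1 hS1 (fun f _ hf ↦ by simpa using hf)
    rw [(hZC Ω I J U S hU1 hS1).2.2.1, one_pow, one_mul] at h1
    have h2 : (Finset.univ : Finset (I ⊕ J)).toLeft.card = nI := by
      rw [hnI, ← Finset.card_univ]; congr 1; ext i; simp
    have h3 : (Finset.univ : Finset (I ⊕ J)).toRight.card = nJ := by
      rw [hnJ, ← Finset.card_univ]; congr 1; ext i; simp
    have h4 : (Finset.univ : Finset (I ⊕ J)).card = d := by
      rw [Finset.card_univ, Fintype.card_sum]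
    rw [h2, h3, h4] at h1
    have h5 : ((U : ℝ) ^ nI * (S : ℝ) ^ nJ) ≤ (d : ℝ) ^ d * finrank Ω (Fil Ω I J U S 1) := by
      exact_mod_cast h1
    have h6 : (U : ℝ) ^ ((nI : ℝ) + β * nJ) ≤ 2 ^ nJ * ((U : ℝ) ^ nI * (S : ℝ) ^ nJ) := by
      rw [Real.rpow_add hU0, Real.rpow_natCast, Real.rpow_mul hU0.le, Real.rpow_natCast]
      have h7 : ((U : ℝ) ^ β) ^ nJ ≤ (2 * S) ^ nJ :=
        pow_le_pow_left₀ (by positivity) (by linarith) _
      calc (U : ℝ) ^ nI * ((U : ℝ) ^ β) ^ nJ ≤ (U : ℝ) ^ nI * (2 * S) ^ nJ :=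
            mul_le_mul_of_nonneg_left h7 (by positivity)
        _ = _ := by rw [mul_pow]; ring
    have h8 : (0 : ℝ) < (d : ℝ) ^ d * 2 ^ nJ := by positivity
    have h9 : C * ((d : ℝ) ^ d * 2 ^ nJ) * ((U : ℝ) * Real.log U) ^ N <
        ((d : ℝ) ^ d * 2 ^ nJ) * finrank Ω (Fil Ω I J U S 1) := by
      refine hU2.trans_le (h6.trans ?_)
      calc 2 ^ nJ * ((U : ℝ) ^ nI * (S : ℝ) ^ nJ) ≤
          2 ^ nJ * ((d : ℝ) ^ d * finrank Ω (Fil Ω I J U S 1)) :=
            mul_le_mul_of_nonneg_left h5 (by positivity)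
        _ = _ := by ring
    have h10 : ((d : ℝ) ^ d * 2 ^ nJ) * (C * ((U : ℝ) * Real.log U) ^ N) <
        ((d : ℝ) ^ d * 2 ^ nJ) * finrank Ω (Fil Ω I J U S 1) := by
      calc ((d : ℝ) ^ d * 2 ^ nJ) * (C * ((U : ℝ) * Real.log U) ^ N) =
          C * ((d : ℝ) ^ d * 2 ^ nJ) * ((U : ℝ) * Real.log U) ^ N := by ring
        _ < _ := h9
    exact lt_of_mul_lt_mul_left h10 h8.le
  obtain ⟨f, hf0, hfF, hfv⟩ := exists_vanishing hDET D U S (d * B) hU1 hS1
    (C * ((U : ℝ) * Real.log U) ^ N) (fun l t a ht ha hne ↦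
      hdet U U S (d * B) l t a hUge hS1 hU1 le_rfl hdBU hSdB ht
        (fun j r ↦ by exact_mod_cast ha j r) hne) hdim
  obtain ⟨G, hG1, hG2⟩ := hc Ω D U S B f hS1 hSU hB1 hf0 hfF hfv
  have hG3 := hG G hG1
  have h5 : finrank Ω (D.spanX G) ≤ nI := by
    have := Submodule.finrank_le (D.spanX G)
    rwa [Module.finrank_fintype_fun_eq_card] at this
  obtain ⟨E, hE1, hE2, hE3⟩ := htr G
  have h7 : finrank ℤ (D.rel G) ≤ nJ := by
    rw [← hE3]
    have := Submodule.finrank_le (relY Y E)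
    rwa [Module.finrank_fintype_fun_eq_card] at this
  have h8 := hU3 ((g - finrank ℤ G, nI - finrank Ω (D.spanX G)), finrank ℤ (D.rel G)) (by
    simp only [Finset.mem_product, Finset.mem_range]
    omega) hG3
  have h9 : ((U : ℝ) ^ (1 - β) / (2 * d)) ^ (g - finrank ℤ G) ≤ (B : ℝ) ^ (g - finrank ℤ G) :=
    pow_le_pow_left₀ (by positivity) hBlow _
  have h10 : (B : ℝ) ^ (g - finrank ℤ G) ≤
      c * ((U : ℝ) ^ (nI - finrank Ω (D.spanX G)) * (S : ℝ) ^ finrank ℤ (D.rel G)) := by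
    exact_mod_cast hG2
  have h11 : (U : ℝ) ^ (nI - finrank Ω (D.spanX G)) * (S : ℝ) ^ finrank ℤ (D.rel G) ≤
      (U : ℝ) ^ (((nI - finrank Ω (D.spanX G) : ℕ) : ℝ) + β * finrank ℤ (D.rel G)) := by
    rw [Real.rpow_add hU0, Real.rpow_natCast, Real.rpow_mul hU0.le, Real.rpow_natCast]
    exact mul_le_mul_of_nonneg_left (pow_le_pow_left₀ (by positivity) hSup _) (by positivity)
  have h12 : (c : ℝ) * ((U : ℝ) ^ (nI - finrank Ω (D.spanX G)) *
      (S : ℝ) ^ finrank ℤ (D.rel G)) ≤ c *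
      (U : ℝ) ^ (((nI - finrank Ω (D.spanX G) : ℕ) : ℝ) + β * finrank ℤ (D.rel G)) :=
    mul_le_mul_of_nonneg_left h11 (Nat.cast_nonneg _)
  linarith

end main

end Pool.Agent.Helper17.SL
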