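import Mathlib

/-!
# Project SL: the zero estimate, definitions and goals

Paper proof: PAPER.md, section 1. `K` is a field of characteristic zero, `I` and `J` are the
(finite) index sets of the additive variables `X i` and of the multiplicative variables `Y j`.
-/

namespace Pool.Agent.Helper17.SL

open MvPolynomial Module

universe u v w x y z

/-- The weight `S |t| + T |s|` of the monomial `X ^ t Y ^ s`. -/
def wt {I J : Type*} [Fintype I] [Fintype J] (T S : ℕ) (d : I ⊕ J →₀ ℕ) : ℕ :=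
  S * ∑ i, d (Sum.inl i) + T * ∑ j, d (Sum.inr j)

/-- The space `F_x` of the polynomials of weight at most `x S T`. -/
noncomputable def Fil (K : Type*) [Field K] (I J : Type*) [Fintype I] [Fintype J] (T S x : ℕ) :
    Submodule K (MvPolynomial (I ⊕ J) K) :=
  restrictSupport K {d | wt T S d ≤ x * (S * T)}

/-- The Hilbert function of the ideal `A`: the dimension of `F_x / (F_x ∩ A)`. -/
noncomputable def hil {K : Type*} [Field K] {I J : Type*} [Fintype I] [Fintype J]
    (A : Ideal (MvPolynomial (I ⊕ J) K)) (T S x : ℕ) : ℕ :=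
  finrank K ((Fil K I J T S x).map (Ideal.Quotient.mkₐ K A).toLinearMap)

/-- The polynomials in the variables of the set `s` are independent modulo `A`. -/
def Indep {K σ : Type*} [Field K] (A : Ideal (MvPolynomial σ K)) (s : Finset σ) : Prop :=
  ∀ f ∈ supported K (s : Set σ), f ∈ A → f = 0

/-- A homomorphism from `ℤ ^ g` to the group `K ^ I × (Kˣ) ^ J`. -/
structure Dat (K I J : Type*) [Field K] (g : ℕ) where
  /-- the additive coordinates -/
  X : (Fin g → ℤ) → I → K
  /-- the multiplicative coordinates -/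
  Y : (Fin g → ℤ) → J → K
  X_add : ∀ a b i, X (a + b) i = X a i + X b i
  Y_add : ∀ a b j, Y (a + b) j = Y a j * Y b j
  Y_ne : ∀ a j, Y a j ≠ 0

namespace Dat

variable {K I J : Type*} [Field K] {g : ℕ} (D : Dat K I J g)

/-- The point attached to `a`. -/
def pt (a : Fin g → ℤ) : I ⊕ J → K := Sum.elim (D.X a) (D.Y a)

/-- The translation `X i ↦ X i + X i (a)`, `Y j ↦ Y j (a) Y j`. -/
noncomputable def tau (a : Fin g → ℤ) : MvPolynomial (I ⊕ J) K →ₐ[K] MvPolynomial (I ⊕ J) K :=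
  aeval (Sum.elim (fun i ↦ MvPolynomial.X (Sum.inl i) + C (D.X a i))
    (fun j ↦ C (D.Y a j) * MvPolynomial.X (Sum.inr j)))

/-- The span of `X(G)` in `K ^ I`. -/
def spanX (G : Submodule ℤ (Fin g → ℤ)) : Submodule K (I → K) :=
  Submodule.span K {z | ∃ a ∈ G, z = D.X a}

theorem Y_zero (j : J) : D.Y 0 j = 1 := by
  have h := D.Y_add 0 0 j
  rw [add_zero] at h
  exact mul_right_cancel₀ (D.Y_ne 0 j) (by rw [one_mul]; exact h.symm)

/-- The group of the `s ∈ ℤ ^ J` such that `Y ^ s = 1` on `G`. -/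
def rel [Fintype J] (G : Submodule ℤ (Fin g → ℤ)) : Submodule ℤ (J → ℤ) where
  carrier := {s | ∀ a ∈ G, ∏ j, D.Y a j ^ s j = 1}
  add_mem' := fun {s t} hs ht a ha ↦ by
    have : ∀ j, D.Y a j ^ (s + t) j = D.Y a j ^ s j * D.Y a j ^ t j := fun j ↦
      zpow_add₀ (D.Y_ne a j) _ _
    simp only [this, Finset.prod_mul_distrib, hs a ha, ht a ha, mul_one]
  zero_mem' := fun a _ ↦ by simp
  smul_mem' := fun c s hs a ha ↦ by
    have : ∀ j, D.Y a j ^ (c • s) j = (D.Y a j ^ s j) ^ c := fun j ↦ by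
      rw [Pi.smul_apply, smul_eq_mul, mul_comm, zpow_mul]
    simp only [this, Finset.prod_zpow, hs a ha, one_zpow]

end Dat

/-! ### Hilbert functions -/

/-- **ZA** (dimension of `F_x`). `dim F_x ≤ 2^d x^d T^|I| S^|J|`, `d = |I| + |J|`: for a monomial of
`F_x` all the exponents of the `X i` are `≤ x T` and those of the `Y j` are `≤ x S`, and
`x T + 1 ≤ 2 x T`. (`F_x` has a basis of monomials, `basisRestrictSupport`.) -/
def S_ZA : Prop := ∀ (K : Type u) [Field K] (I : Type x) (J : Type y) [Fintype I] [Fintype J]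
  (T S x : ℕ), 1 ≤ T → 1 ≤ S → 1 ≤ x →
  FiniteDimensional K (Fil K I J T S x) ∧ finrank K (Fil K I J T S x) ≤
    2 ^ (Fintype.card I + Fintype.card J) *
      (x ^ (Fintype.card I + Fintype.card J) * T ^ Fintype.card I * S ^ Fintype.card J)

/-- **ZB** (lower bound for the Hilbert function). If `K[s] ∩ A = 0`, `s` containing `e` of the
variables `X i` and `e'` of the `Y j`, then the monomials in `K[s]` with exponents `≤ x T / d` for
the `X i`, `≤ x S / d` for the `Y j` (`d = |I| + |J|`, euclidean division) are in `F_x` and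
linearly independent modulo `A`; `d (x T / d + 1) ≥ x T`. -/
def S_ZB : Prop := ∀ (K : Type u) [Field K] (I : Type x) (J : Type y) [Fintype I] [Fintype J]
  (A : Ideal (MvPolynomial (I ⊕ J) K)) (s : Finset (I ⊕ J)) (T S x : ℕ), 1 ≤ T → 1 ≤ S →
  Indep A s →
  x ^ s.card * (T ^ s.toLeft.card * S ^ s.toRight.card) ≤
    (Fintype.card I + Fintype.card J) ^ s.card * hil A T S x

/-- **ZC** (elementary properties of Hilbert functions). Monotone in `x`, antitone in the ideal,
and the inequality for a non zero divisor `f ∈ F_1` modulo `A`: `g ↦ f g` induces an injection of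
`F_x / (F_x ∩ A)` in `F_{x+1} / (F_{x+1} ∩ A)`, whose image is killed in
`F_{x+1} / (F_{x+1} ∩ A')`. Also `hil ⊥ x = dim F_x`. (`F_x F_1 ⊆ F_{x+1}` since the weight is
additive.) -/
def S_ZC : Prop := ∀ (K : Type u) [Field K] (I : Type x) (J : Type y) [Fintype I] [Fintype J]
  (T S : ℕ), 1 ≤ T → 1 ≤ S →
  (∀ (A : Ideal (MvPolynomial (I ⊕ J) K)) (x x' : ℕ), x ≤ x' → hil A T S x ≤ hil A T S x') ∧
  (∀ (A A' : Ideal (MvPolynomial (I ⊕ J) K)) (x : ℕ), A ≤ A' → hil A' T S x ≤ hil A T S x) ∧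
  (∀ x, hil (⊥ : Ideal (MvPolynomial (I ⊕ J) K)) T S x = finrank K (Fil K I J T S x)) ∧
  (∀ (A A' : Ideal (MvPolynomial (I ⊕ J) K)) (f : MvPolynomial (I ⊕ J) K) (x : ℕ),
    A ≤ A' → f ∈ Fil K I J T S 1 → f ∈ A' → (∀ g, f * g ∈ A → g ∈ A) →
    hil A' T S (x + 1) + hil A T S x ≤ hil A T S (x + 1))

/-- **ZD** (sum over primes). For a finite set of pairwise incomparable primes `P` containing `A`:
for each `P` choose `g_P` in all the other primes and not in `P` (product of elements), `w` such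
that all `g_P ∈ F_w`. The map `(h_P) ↦ ∑ h_P g_P` from `⊕ F_x / (F_x ∩ P)` to
`F_{x+w} / (F_{x+w} ∩ ⋂ P)` is well defined and injective; `A ≤ ⋂ P`. -/
def S_ZD : Prop := ∀ (K : Type u) [Field K] (I : Type x) (J : Type y) [Fintype I] [Fintype J]
  (T S : ℕ), 1 ≤ T → 1 ≤ S → ∀ (A : Ideal (MvPolynomial (I ⊕ J) K))
  (PP : Finset (Ideal (MvPolynomial (I ⊕ J) K))), (∀ P ∈ PP, P.IsPrime) → (∀ P ∈ PP, A ≤ P) →
  (∀ P ∈ PP, ∀ Q ∈ PP, P ≤ Q → P = Q) →
  ∃ w : ℕ, ∀ x : ℕ, ∑ P ∈ PP, hil P T S x ≤ hil A T S (x + w)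

/-! ### Commutative algebra -/

/-- **ZE1** (regular chain). `QQ_i` = the set of the minimal primes over `(f_0, …, f_{i-1})` which are
contained in some `P ∈ PP`, `A i` = intersection of `QQ_i`. Induction on `i`: all the `Q ∈ QQ_i` have
height `i` (`≤` by Krull's height theorem `Ideal.height_le_card_of_mem_minimalPrimes_span_finset`,
`≥` since `Q' ∈ QQ_{i+1}` contains some `Q ∈ QQ_i` and `f_i ∈ Q' \ Q`). If `i < h` then `V` is
contained in no `Q ∈ QQ_i`, so there is `f_i ∈ V` outside all of them (`QQ_i` is finite, a vector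
space over an infinite field is not a finite union of proper subspaces). `P ∈ PP` contains some
`Q ∈ QQ_h`, of height `h`, so `P = Q`. -/
def S_ZE1 : Prop := ∀ (K : Type u) [Field K] [Infinite K] (R : Type v) [CommRing R] [IsDomain R]
  [IsNoetherianRing R] [Algebra K R] (V : Submodule K R) (PP : Finset (Ideal R)) (h : ℕ),
  PP.Nonempty → (∀ P ∈ PP, P.IsPrime ∧ P.height = h ∧ (V : Set R) ⊆ P) →
  (∀ P ∈ PP, ∀ Q : Ideal R, Q.IsPrime → Q ≤ P → (V : Set R) ⊆ Q → (h : ℕ∞) ≤ Q.height) →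
  ∃ (A : ℕ → Ideal R) (f : ℕ → R), A 0 = ⊥ ∧ (∀ P ∈ PP, A h ≤ P) ∧
    ∀ i < h, f i ∈ V ∧ A i ≤ A (i + 1) ∧ f i ∈ A (i + 1) ∧ ∀ g, f i * g ∈ A i → g ∈ A i

/-- **ZE2** (dimension). Let `s ⊇ s₀` be maximal with `K[s] ∩ P = 0`. Every other variable is
algebraic over `K(s)` in the fraction field of `R/P`. The localization of `R = K[σ]` at
`K[s] \ {0}` is `K(s)[σ \ s]` and the prime ideal generated by `P` in it has a quotient algebraic
over `K(s)`, so it is maximal; a maximal ideal of a polynomial ring in `n` variables over a field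
has height `n` (see `Polynomial.height_eq_height_add_one`, `MvPolynomial.ringKrullDim`);
`IsLocalization.height_under`. (Any other proof of `|σ| ≤ ht P + trdeg` is welcome.) -/
def S_ZE2 : Prop := ∀ (K : Type u) [Field K] (σ : Type v) [Fintype σ]
  (P : Ideal (MvPolynomial σ K)) (s₀ : Finset σ), P.IsPrime → Indep P s₀ →
  ∃ s : Finset σ, s₀ ⊆ s ∧ Indep P s ∧ (Fintype.card σ : ℕ∞) ≤ P.height + s.card

/-! ### Stabilizers -/

/-- **ZF** (linear independence of exponential polynomials). `G` is an abelian group, `X i : G → K`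
additive, linearly independent over `K`; `Y j : G → K` multiplicative, without zeros, and
multiplicatively independent. Then the functions `X ^ t Y ^ s` on `G` are linearly independent:
a relation is `∑_s P_s(X(a)) χ_s(a) = 0` with distinct characters `χ_s = Y ^ s` and polynomials
`P_s`. Take one with `P_s ≠ 0` for all `s` and `∑ (1 + deg P_s)` minimal, fix `s₀`; for `b ∈ G`
subtract `χ_{s₀}(b)` times the relation from its translate by `b`; the new relation is smaller, so
it is trivial: `P_{s₀}(X + X(b)) = P_{s₀}(X)` for all `b`, hence `P_{s₀}` is constant (`X(G)` spans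
`K ^ I`, characteristic zero), and `χ_s(b) P_s(X + X(b)) = χ_{s₀}(b) P_s(X)`, whose top degree part
gives `χ_s = χ_{s₀}`. So there is only one `s`. -/
def S_ZF : Prop := ∀ (K : Type u) [Field K] [CharZero K] (G : Type v) [AddCommGroup G]
  (I : Type x) (J : Type y) [Fintype I] [Fintype J] (X : I → G → K) (Y : J → G → K),
  (∀ i a b, X i (a + b) = X i a + X i b) → (∀ j a b, Y j (a + b) = Y j a * Y j b) →
  (∀ j a, Y j a ≠ 0) → LinearIndependent K X →
  (∀ s : J → ℤ, (∀ a, ∏ j, Y j a ^ s j = 1) → s = 0) →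
  LinearIndependent K (fun (d : I ⊕ J →₀ ℕ) (a : G) ↦
    (∏ i, X i a ^ d (Sum.inl i)) * ∏ j, Y j a ^ d (Sum.inr j))

/-- **ZG** (independence modulo an invariant prime), uses ZF. `P` is a prime not containing the
`Y j`, stable under the translations by the elements of `G`. Suppose that the `X i`, `i ∈ s`, are
linearly independent on `G` and the `Y j`, `j ∈ s`, multiplicatively independent on `G`. Then
`K[s] ∩ P = 0`. Proof: let `0 ≠ f ∈ K[s] ∩ P`. The class of `tau a f` in `R/P` is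
`∑_{t,s} c_{t,s} X(a)^t Y(a)^s` with `c_{t,s} ∈ R/P` (expand `f(x + X(a), y Y(a))`), it is zero for
`a ∈ G`, so (apply linear forms `R/P → K` and ZF) all the `c_{t,s}` are zero. For `t` of maximal
degree with some `f_{t,s} ≠ 0`, `c_{t,s} = f_{t,s} y^s ≠ 0`, as `y_j ≠ 0` in `R/P`. -/
def S_ZG : Prop := ∀ (K : Type u) [Field K] [CharZero K] (I : Type x) (J : Type y) [Fintype I]
  [Fintype J] (g : ℕ) (D : Dat K I J g) (P : Ideal (MvPolynomial (I ⊕ J) K))
  (G : Submodule ℤ (Fin g → ℤ)) (s : Finset (I ⊕ J)), P.IsPrime →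
  (∀ j, (X (Sum.inr j) : MvPolynomial (I ⊕ J) K) ∉ P) →
  (∀ a ∈ G, ∀ f ∈ P, D.tau a f ∈ P) →
  (∀ c : I → K, (∀ i, Sum.inl i ∉ s → c i = 0) → (∀ a ∈ G, ∑ i, c i * D.X a i = 0) → c = 0) →
  (∀ c : J → ℤ, (∀ j, Sum.inr j ∉ s → c j = 0) → c ∈ D.rel G → c = 0) →
  Indep P s

/-- **ZH** (choice of the coordinates). There is a set `s` of variables satisfying the hypotheses of
ZG with `dim span X(G)` variables `X i` and `|J| - rank (rel G)` variables `Y j` (maximal
independent sets; a maximal set `J₀` with `ℤ ^ J₀ ∩ rel G = 0` has `|J| - rank (rel G)` elements). -/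
def S_ZH : Prop := ∀ (K : Type u) [Field K] [CharZero K] (I : Type x) (J : Type y) [Fintype I]
  [Fintype J] (g : ℕ) (D : Dat K I J g) (G : Submodule ℤ (Fin g → ℤ)),
  ∃ s : Finset (I ⊕ J), s.toLeft.card = finrank K (D.spanX G) ∧
  s.toRight.card + finrank ℤ (D.rel G) = Fintype.card J ∧
  (∀ c : I → K, (∀ i, Sum.inl i ∉ s → c i = 0) → (∀ a ∈ G, ∑ i, c i * D.X a i = 0) → c = 0) ∧
  (∀ c : J → ℤ, (∀ j, Sum.inr j ∉ s → c j = 0) → c ∈ D.rel G → c = 0)

/-- **ZI** (classes of a box modulo a subgroup): the box `|a i| ≤ B` has at least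
`B ^ (g - rank G)` elements which are pairwise distinct modulo `G`: choose `g - rank G` vectors of
the standard basis which are independent modulo the rational span of `G` and take their
combinations with coefficients `1, …, B`. -/
def S_ZI : Prop := ∀ (g : ℕ) (G : Submodule ℤ (Fin g → ℤ)) (B : ℕ), 1 ≤ B →
  ∃ s : Finset (Fin g → ℤ), (∀ a ∈ s, ∀ i, |a i| ≤ B) ∧ (∀ a ∈ s, ∀ b ∈ s, a - b ∈ G → a = b) ∧
    B ^ (g - finrank ℤ G) ≤ s.card

/-- **ZJ** (translations): composition, evaluation, filtration, `K[s]`. -/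
def S_ZJ : Prop := ∀ (K : Type u) [Field K] (I : Type x) (J : Type y) [Fintype I] [Fintype J]
  (g : ℕ) (D : Dat K I J g),
  (∀ a b f, D.tau a (D.tau b f) = D.tau (a + b) f) ∧ (∀ f, D.tau 0 f = f) ∧
  (∀ a b f, eval (D.pt b) (D.tau a f) = eval (D.pt (a + b)) f) ∧
  (∀ T S x a, ∀ f ∈ Fil K I J T S x, D.tau a f ∈ Fil K I J T S x) ∧
  (∀ (s : Finset (I ⊕ J)) a, ∀ f ∈ supported K (s : Set (I ⊕ J)),
    D.tau a f ∈ supported K (s : Set (I ⊕ J)))

/-- **S_ZE**: the zero estimate. -/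
def S_ZE : Prop := ∀ (g : ℕ) (I : Type x) (J : Type y) [Fintype I] [Fintype J], ∃ c : ℕ,
  ∀ (K : Type u) [Field K] [CharZero K] (D : Dat K I J g) (T S B : ℕ)
  (f : MvPolynomial (I ⊕ J) K), 1 ≤ S → S ≤ T → 1 ≤ B → f ≠ 0 → f ∈ Fil K I J T S 1 →
  (∀ a : Fin g → ℤ, (∀ i, |a i| ≤ ((Fintype.card I + Fintype.card J) * B : ℕ)) →
    eval (D.pt a) f = 0) →
  ∃ G : Submodule ℤ (Fin g → ℤ),
    (finrank K (D.spanX G) ≠ Fintype.card I ∨ finrank ℤ (D.rel G) ≠ 0) ∧
    B ^ (g - finrank ℤ G) ≤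
      c * (T ^ (Fintype.card I - finrank K (D.spanX G)) * S ^ finrank ℤ (D.rel G))

end Pool.Agent.Helper17.SL
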