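import Pool.Agent.Helper17.SL.GoalsG
import Pool.Agent.Helper42.SLR.Defs

/-!
# Project SL: from the rank bound of module SLR to the interface
-/

namespace Pool.Agent.Helper17.SL

open Pool.Agent.Helper51.SigLeo Pool.Agent.Helper51.SixExp NumberField Module

universe u v w x y z

theorem rb_bridge (h : Pool.Agent.Helper42.SLR.S_RB.{u, v, w, x, y}) : S_RB.{u, v, w, x, y} := by
  classical
  intro p _ k _ _ _ _ _ Ω _ _ _ ι Λ V _ _ _ I J _ _ X Y N hY hN hspan
  obtain ⟨g, e, D, C, hC, hX, -, hrel, hdet⟩ := h p k Ω ι Λ V I J X Y N hY hN hspan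
  refine ⟨g, e, D, C, hC, hX, hrel, ?_⟩
  intro U T S B l t a hU hS hT hTU hBU hSB ht ha hne
  refine hdet U T B S hU hTU hBU hSB l (fun m i ↦ t m (Sum.inl i)) (fun m j ↦ t m (Sum.inr j)) a
    ?_ ?_ ha ?_
  · intro m i
    have h1 := ht m
    unfold wt at h1
    have h2 : t m (Sum.inl i) ≤ ∑ i, t m (Sum.inl i) :=
      Finset.single_le_sum (f := fun i ↦ t m (Sum.inl i)) (fun _ _ ↦ Nat.zero_le _)
        (Finset.mem_univ i)
    have h3 : S * t m (Sum.inl i) ≤ S * T :=
      (Nat.mul_le_mul_left S h2).trans ((Nat.le_add_right _ _).trans h1)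
    exact Nat.le_of_mul_le_mul_left h3 hS
  · intro m j
    have h1 := ht m
    unfold wt at h1
    have h2 : t m (Sum.inr j) ≤ ∑ j, t m (Sum.inr j) :=
      Finset.single_le_sum (f := fun j ↦ t m (Sum.inr j)) (fun _ _ ↦ Nat.zero_le _)
        (Finset.mem_univ j)
    have h3 : T * t m (Sum.inr j) ≤ T * S := by
      rw [mul_comm T S]
      exact (Nat.mul_le_mul_left T h2).trans ((Nat.le_add_left _ _).trans h1)
    exact Nat.le_of_mul_le_mul_left h3 hT
  · exact hne

end Pool.Agent.Helper17.SL
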