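import Pool.Agent.Helper17.SL.GoalsZE

/-!
# Project SL: assembly of the zero estimate
-/

namespace Pool.Agent.Helper17.SL

open MvPolynomial Module

universe u v w x y z

/-- Telescoping of Hilbert functions. -/
theorem telescope (H : ℕ → ℕ → ℕ) (h : ℕ) (hmono : ∀ i x x', x ≤ x' → H i x ≤ H i x')
    (hstep : ∀ i < h, ∀ x, H (i + 1) (x + 1) + H i x ≤ H i (x + 1)) :
    ∀ i ≤ h, ∀ x, x ^ i * H i x ≤ H 0 (2 ^ i * x) := by
  have hsum : ∀ i < h, ∀ x y, y * H (i + 1) x + H i x ≤ H i (x + y) := by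
    intro i hi x y
    induction y with
    | zero => simp
    | succ y ih =>
      have h1 := hstep i hi (x + y)
      have h2 := hmono (i + 1) x (x + y + 1) (by omega)
      rw [← add_assoc]
      nlinarith
  intro i
  induction i with
  | zero => intro _ x; simp
  | succ i ih =>
    intro hi x
    have h1 := hsum i (by omega) x x
    have h2 := ih (by omega) (x + x)
    have h3 : (2 : ℕ) ^ (i + 1) * x = 2 ^ i * (x + x) := by ring
    rw [h3]
    refine le_trans ?_ h2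
    calc x ^ (i + 1) * H (i + 1) x = x ^ i * (x * H (i + 1) x) := by ring
      _ ≤ x ^ i * H i (x + x) := Nat.mul_le_mul_left _ (by omega)
      _ ≤ (x + x) ^ i * H i (x + x) := Nat.mul_le_mul_right _ (Nat.pow_le_pow_left (by omega) _)

/-- The polynomials of `F_1` vanishing on the box `|a i| ≤ r B`. -/
noncomputable def vanish {K I J : Type*} [Field K] [Fintype I] [Fintype J] {g : ℕ}
    (D : Dat K I J g) (T S B r : ℕ) : Submodule K (MvPolynomial (I ⊕ J) K) where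
  carrier := {f | f ∈ Fil K I J T S 1 ∧ ∀ a : Fin g → ℤ, (∀ i, |a i| ≤ (r * B : ℕ)) →
    eval (D.pt a) f = 0}
  add_mem' := fun {f f'} hf hf' ↦ ⟨add_mem hf.1 hf'.1, fun a ha ↦ by
    rw [map_add, hf.2 a ha, hf'.2 a ha, add_zero]⟩
  zero_mem' := ⟨zero_mem _, fun a _ ↦ map_zero _⟩
  smul_mem' := fun c f hf ↦ ⟨Submodule.smul_mem _ c hf.1, fun a ha ↦ by
    rw [smul_eval, hf.2 a ha, mul_zero]⟩

theorem vanish_anti {K I J : Type*} [Field K] [Fintype I] [Fintype J] {g : ℕ}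
    (D : Dat K I J g) (T S B : ℕ) {r r' : ℕ} (h : r ≤ r') :
    vanish D T S B r' ≤ vanish D T S B r := by
  rintro f ⟨hf, hf'⟩
  refine ⟨hf, fun a ha ↦ hf' a fun i ↦ (ha i).trans ?_⟩
  exact_mod_cast Nat.mul_le_mul_right B h

/-- A prime ideal containing none of the variables `Y j`. -/
def Good {K I J : Type*} [Field K] (Q : Ideal (MvPolynomial (I ⊕ J) K)) : Prop :=
  Q.IsPrime ∧ ∀ j : J, (X (Sum.inr j) : MvPolynomial (I ⊕ J) K) ∉ Q

/-- The ideal of the point attached to `0`. -/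
theorem good_ker {K I J : Type*} [Field K] {g : ℕ} (D : Dat K I J g) :
    Good (RingHom.ker (eval (D.pt 0))) := by
  refine ⟨RingHom.ker_isPrime _, fun j hj ↦ ?_⟩
  rw [RingHom.mem_ker, eval_X] at hj
  exact D.Y_ne 0 j hj

/-- Assembly of the zero estimate. -/
theorem ze (hA : S_ZA.{u, x, y}) (hB : S_ZB.{u, x, y}) (hC : S_ZC.{u, x, y})
    (hD : S_ZD.{u, x, y}) (hE1 : S_ZE1.{u, max x y u}) (hE2 : S_ZE2.{u, max x y})
    (hG : S_ZG.{u, x, y}) (hH : S_ZH.{u, x, y}) (hI : S_ZI) (hJ : S_ZJ.{u, x, y}) :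
    S_ZE.{u, x, y} := by
  classical
  intro g I J _ _
  set dd := Fintype.card I + Fintype.card J with hdd
  refine ⟨dd ^ dd * (2 ^ dd * 2 ^ (dd * dd)) * 2 ^ dd, ?_⟩
  intro K _ _ D T S B f hS hST hB1 hf0 hfF hfv
  have hT : 1 ≤ T := hS.trans hST
  obtain ⟨hJ1, hJ2, hJ3, hJ4, hJ5⟩ := hJ K I J g D
  obtain ⟨hC1, hC2, hC3, hC4⟩ := hC K I J T S hT hS
  have hfdd : f ∈ vanish D T S B dd := ⟨hfF, hfv⟩
  -- heights
  have hcard : Fintype.card (I ⊕ J) = dd := Fintype.card_sum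
  have hdim : ∀ Q : Ideal (MvPolynomial (I ⊕ J) K), Q.IsPrime → Q.height ≤ dd := by
    intro Q hQ
    have h1 : (Q.height : WithBot ℕ∞) ≤ ringKrullDim (MvPolynomial (I ⊕ J) K) :=
      Ideal.height_le_ringKrullDim_of_isPrime
    rw [MvPolynomial.ringKrullDim_of_isNoetherianRing, ringKrullDim_eq_zero_of_field,
      zero_add, Nat.card_eq_fintype_card, hcard] at h1
    exact_mod_cast h1
  have hnat : ∀ Q : Ideal (MvPolynomial (I ⊕ J) K), Q.IsPrime → ∃ n : ℕ, Q.height = n ∧ n ≤ dd := by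
    intro Q hQ
    have h1 := hdim Q hQ
    have h2 : Q.height ≠ ⊤ := fun h ↦ by rw [h] at h1; simp at h1
    obtain ⟨n, hn⟩ := ENat.ne_top_iff_exists.mp h2
    refine ⟨n, hn.symm, ?_⟩
    rw [← hn] at h1
    exact_mod_cast h1
  let Hs : ℕ → Set ℕ := fun r ↦ {n | ∃ Q : Ideal (MvPolynomial (I ⊕ J) K), Good Q ∧
    (vanish D T S B r : Set (MvPolynomial (I ⊕ J) K)) ⊆ Q ∧ Q.height = n}
  have hker : ∀ r, (vanish D T S B r : Set (MvPolynomial (I ⊕ J) K)) ⊆
      RingHom.ker (eval (D.pt 0)) := by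
    rintro r q ⟨-, hq⟩
    exact hq 0 (fun i ↦ by rw [Pi.zero_apply, abs_zero]; exact Int.natCast_nonneg _)
  have hne : ∀ r, (Hs r).Nonempty := by
    intro r
    obtain ⟨n, hn, -⟩ := hnat _ (good_ker D).1
    exact ⟨n, _, good_ker D, hker r, hn⟩
  let hh : ℕ → ℕ := fun r ↦ sInf (Hs r)
  have hhmem : ∀ r, hh r ∈ Hs r := fun r ↦ Nat.sInf_mem (hne r)
  have hhle : ∀ r, hh r ≤ dd := by
    intro r
    obtain ⟨Q, hQ, -, hQh⟩ := hhmem r
    obtain ⟨n, hn, hn'⟩ := hnat Q hQ.1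
    rw [hn] at hQh
    have : n = hh r := by exact_mod_cast hQh
    omega
  have hhpos : ∀ r ≤ dd, 1 ≤ hh r := by
    intro r hr
    obtain ⟨Q, hQ, hQV, hQh⟩ := hhmem r
    have hfQ : f ∈ Q := hQV (vanish_anti D T S B hr hfdd)
    by_contra hcon
    have h0 : hh r = 0 := by omega
    rw [h0] at hQh
    have hbot : Q = ⊥ := Ideal.height_eq_zero_iff_eq_bot.mp (by exact_mod_cast hQh)
    rw [hbot] at hfQ
    exact hf0 (by simpa using hfQ)
  have hhanti : ∀ r, hh (r + 1) ≤ hh r := by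
    intro r
    obtain ⟨Q, hQ, hQV, hQh⟩ := hhmem r
    exact Nat.sInf_le ⟨Q, hQ, (fun q hq ↦ hQV (vanish_anti D T S B (Nat.le_succ r) hq)), hQh⟩
  obtain ⟨r, hr, hrr⟩ : ∃ r < dd, hh r = hh (r + 1) := by
    by_contra hcon
    push Not at hcon
    have h1 : ∀ r ≤ dd, hh r + r ≤ dd := by
      intro r
      induction r with
      | zero => intro _; exact hhle 0
      | succ r ih =>
        intro hr
        have h2 := ih (by omega)
        have h3 := hhanti r
        have h4 := hcon r (by omega)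
        omega
    have h5 := h1 dd le_rfl
    have h6 := hhpos dd le_rfl
    omega
  obtain ⟨P, hP, hPV, hPh⟩ := hhmem r
  set h : ℕ := hh r with hhdef
  have hPprime := hP.1
  -- translates
  let e : (Fin g → ℤ) → (MvPolynomial (I ⊕ J) K ≃+* MvPolynomial (I ⊕ J) K) := fun a ↦
    { toFun := D.tau a
      invFun := D.tau (-a)
      left_inv := fun q ↦ by rw [hJ1, neg_add_cancel, hJ2]
      right_inv := fun q ↦ by rw [hJ1, add_neg_cancel, hJ2]
      map_mul' := map_mul _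
      map_add' := map_add _ }
  have he : ∀ a q, e a q = D.tau a q := fun a q ↦ rfl
  let Pa : (Fin g → ℤ) → Ideal (MvPolynomial (I ⊕ J) K) := fun a ↦ P.comap (e a)
  have hPa : ∀ a q, q ∈ Pa a ↔ D.tau a q ∈ P := fun a q ↦ Iff.rfl
  have hPaprime : ∀ a, (Pa a).IsPrime := fun a ↦ Ideal.comap_isPrime _ _
  have hPagood : ∀ a, Good (Pa a) := by
    intro a
    refine ⟨hPaprime a, fun j hj ↦ ?_⟩
    rw [hPa] at hj
    unfold Dat.tau at hj
    rw [aeval_X, Sum.elim_inr] at hj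
    rcases hPprime.mem_or_mem hj with h1 | h1
    · apply hPprime.ne_top
      rw [Ideal.eq_top_iff_one]
      have h2 := P.mul_mem_left (C (D.Y a j)⁻¹) h1
      rwa [← C_mul, inv_mul_cancel₀ (D.Y_ne a j), C_1] at h2
    · exact hP.2 j h1
  have hPah : ∀ a, (Pa a).height = h := by
    intro a
    rw [← hPh]
    exact RingEquiv.height_comap (e a) P
  have hPaV : ∀ a : Fin g → ℤ, (∀ i, |a i| ≤ B) →
      (vanish D T S B (r + 1) : Set (MvPolynomial (I ⊕ J) K)) ⊆ Pa a := by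
    rintro a ha q ⟨hq1, hq2⟩
    show D.tau a q ∈ P
    apply hPV
    refine ⟨hJ4 T S 1 a q hq1, fun b hb ↦ ?_⟩
    rw [hJ3]
    apply hq2
    intro i
    have h1 := ha i
    have h2 := hb i
    have h3 := abs_add_le (a i) (b i)
    rw [Pi.add_apply]
    push_cast at h2 ⊢
    linarith
  -- the stabilizer
  let G : AddSubgroup (Fin g → ℤ) :=
    { carrier := {a | ∀ q, q ∈ P ↔ D.tau a q ∈ P}
      add_mem' := fun {a b} ha hb q ↦ by
        rw [← hJ1, ← ha, ← hb]
      zero_mem' := fun q ↦ by rw [hJ2]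
      neg_mem' := fun {a} ha q ↦ by
        rw [ha (D.tau (-a) q), hJ1, add_neg_cancel, hJ2] }
  set Gs : Submodule ℤ (Fin g → ℤ) := AddSubgroup.toIntSubmodule G with hGs
  have hGmem : ∀ a, a ∈ Gs ↔ ∀ q, q ∈ P ↔ D.tau a q ∈ P := fun a ↦ Iff.rfl
  obtain ⟨s, hs1, hs2, hs3⟩ := hI g Gs B hB1
  set PP : Finset (Ideal (MvPolynomial (I ⊕ J) K)) := s.image Pa with hPP
  have hPPcard : PP.card = s.card := by
    apply Finset.card_image_of_injOn
    intro a ha b hb hab
    apply hs2 a ha b hb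
    rw [hGmem]
    intro q
    have h1 : D.tau (-b) q ∈ Pa a ↔ D.tau (-b) q ∈ Pa b := by
      have : Pa a = Pa b := hab
      rw [this]
    rw [hPa, hPa, hJ1, hJ1, add_neg_cancel, hJ2, ← sub_eq_add_neg] at h1
    exact h1.symm
  have hPPne : PP.Nonempty := by
    rw [← Finset.card_pos, hPPcard]
    have : 0 < B ^ (g - finrank ℤ Gs) := by positivity
    omega
  obtain ⟨A, F, hA0, hAh, hAF⟩ := hE1 K (MvPolynomial (I ⊕ J) K) (vanish D T S B (r + 1)) PP h
    hPPne (by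
      intro Q hQ
      obtain ⟨a, ha, rfl⟩ := Finset.mem_image.mp hQ
      exact ⟨hPaprime a, hPah a, hPaV a (hs1 a ha)⟩) (by
      intro Q hQ Q' hQ' hle hV
      obtain ⟨a, ha, rfl⟩ := Finset.mem_image.mp hQ
      obtain ⟨n, hn, -⟩ := hnat Q' hQ'
      rw [hn, hrr]
      have : hh (r + 1) ≤ n := Nat.sInf_le
        ⟨Q', ⟨hQ', fun j hj ↦ (hPagood a).2 j (hle hj)⟩, hV, hn⟩
      exact_mod_cast this)
  -- coordinates
  obtain ⟨s₀, hs₀1, hs₀2, hs₀3, hs₀4⟩ := hH K I J g D Gs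
  have hind₀ : Indep P s₀ := hG K I J g D P Gs s₀ hPprime hP.2
    (fun a ha q hq ↦ ((hGmem a).mp ha q).mp hq) hs₀3 hs₀4
  obtain ⟨s', hs's₀, hind, hs'h⟩ := hE2 K (I ⊕ J) P s₀ hPprime hind₀
  rw [hcard, hPh] at hs'h
  have hs'h' : dd ≤ h + s'.card := by exact_mod_cast hs'h
  have hindA : ∀ a, Indep (Pa a) s' := by
    intro a q hq hqP
    have h1 : D.tau a q = 0 := hind _ (hJ5 s' a q hq) ((hPa a q).mp hqP)
    exact (e a).injective (by rw [he, he, h1, map_zero])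
  -- Hilbert functions
  have htel := telescope (fun i x ↦ hil (A i) T S x) h (fun i x x' hx ↦ hC1 (A i) x x' hx)
    (fun i hi x ↦ by
      obtain ⟨h1, h2, h3, h4⟩ := hAF i hi
      exact hC4 (A i) (A (i + 1)) (F i) x h2 h1.1 h3 h4)
  obtain ⟨w, hw⟩ := hD K I J T S hT hS (A h) PP (fun Q hQ ↦ by
      obtain ⟨a, ha, rfl⟩ := Finset.mem_image.mp hQ
      exact hPaprime a) hAh (fun Q hQ Q' hQ' hle ↦ by
      obtain ⟨a, ha, rfl⟩ := Finset.mem_image.mp hQ
      obtain ⟨b, hb, rfl⟩ := Finset.mem_image.mp hQ'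
      have := hPaprime a
      have := hPaprime b
      exact Ideal.eq_of_le_of_height_le _ hle (by rw [hPah, hPah]))
  set xx : ℕ := w + 1 with hxx
  have hxx1 : 1 ≤ xx := by omega
  have hdd1 : 1 ≤ dd := by omega
  have hs'le : s'.card ≤ dd := by rw [← hcard]; exact Finset.card_le_univ _
  have hhdd : h ≤ dd := hhle r
  set e₁ := s'.toLeft.card with he₁
  set e₂ := s'.toRight.card with he₂
  have hcards' : e₁ + e₂ = s'.card := Finset.card_toLeft_add_card_toRight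
  -- lower bound
  have hlow : PP.card * (xx ^ s'.card * (T ^ e₁ * S ^ e₂)) ≤ dd ^ dd * hil (A h) T S (xx + w) := by
    calc PP.card * (xx ^ s'.card * (T ^ e₁ * S ^ e₂))
        = ∑ Q ∈ PP, xx ^ s'.card * (T ^ e₁ * S ^ e₂) := by
          rw [Finset.sum_const, smul_eq_mul]
      _ ≤ ∑ Q ∈ PP, dd ^ dd * hil Q T S xx := by
          apply Finset.sum_le_sum
          intro Q hQ
          obtain ⟨a, ha, rfl⟩ := Finset.mem_image.mp hQ
          refine (hB K I J (Pa a) s' T S xx hT hS (hindA a)).trans ?_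
          exact Nat.mul_le_mul_right _ (Nat.pow_le_pow_right hdd1 hs'le)
      _ = dd ^ dd * ∑ Q ∈ PP, hil Q T S xx := by rw [Finset.mul_sum]
      _ ≤ _ := Nat.mul_le_mul_left _ (hw xx)
  -- upper bound
  have hup : (xx + w) ^ h * hil (A h) T S (xx + w) ≤
      2 ^ dd * ((2 ^ h * (xx + w)) ^ dd * T ^ Fintype.card I * S ^ Fintype.card J) := by
    refine (htel h le_rfl (xx + w)).trans ?_
    show hil (A 0) T S (2 ^ h * (xx + w)) ≤ _
    rw [hA0, hC3]
    exact (hA K I J T S (2 ^ h * (xx + w)) hT hS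
      (Nat.one_le_iff_ne_zero.mpr (by positivity))).2
  -- comparison
  have hkey : PP.card * (T ^ e₁ * S ^ e₂) ≤ dd ^ dd * (2 ^ dd * 2 ^ (dd * dd)) * 2 ^ dd *
      (T ^ Fintype.card I * S ^ Fintype.card J) := by
    have h1 : xx ^ dd * (PP.card * (T ^ e₁ * S ^ e₂)) ≤
        (xx + w) ^ h * (PP.card * (xx ^ s'.card * (T ^ e₁ * S ^ e₂))) := by
      have h2 : xx ^ dd ≤ (xx + w) ^ h * xx ^ s'.card := by
        calc xx ^ dd ≤ xx ^ (h + s'.card) := Nat.pow_le_pow_right hxx1 hs'h'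
          _ = xx ^ h * xx ^ s'.card := pow_add _ _ _
          _ ≤ (xx + w) ^ h * xx ^ s'.card :=
              Nat.mul_le_mul_right _ (Nat.pow_le_pow_left (by omega) _)
      calc xx ^ dd * (PP.card * (T ^ e₁ * S ^ e₂)) ≤
          ((xx + w) ^ h * xx ^ s'.card) * (PP.card * (T ^ e₁ * S ^ e₂)) :=
            Nat.mul_le_mul_right _ h2
        _ = _ := by ring
    have h3 : (xx + w) ^ h * (PP.card * (xx ^ s'.card * (T ^ e₁ * S ^ e₂))) ≤
        dd ^ dd * (2 ^ dd * ((2 ^ h * (xx + w)) ^ dd * T ^ Fintype.card I *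
          S ^ Fintype.card J)) := by
      calc (xx + w) ^ h * (PP.card * (xx ^ s'.card * (T ^ e₁ * S ^ e₂)))
          ≤ (xx + w) ^ h * (dd ^ dd * hil (A h) T S (xx + w)) := Nat.mul_le_mul_left _ hlow
        _ = dd ^ dd * ((xx + w) ^ h * hil (A h) T S (xx + w)) := by ring
        _ ≤ _ := Nat.mul_le_mul_left _ hup
    have h4 : (2 ^ h * (xx + w)) ^ dd ≤ (2 ^ (dd * dd) * 2 ^ dd) * xx ^ dd := by
      calc (2 ^ h * (xx + w)) ^ dd ≤ (2 ^ dd * (2 * xx)) ^ dd :=
            Nat.pow_le_pow_left (Nat.mul_le_mul (Nat.pow_le_pow_right (by norm_num) hhdd)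
              (by omega)) _
        _ = (2 ^ (dd * dd) * 2 ^ dd) * xx ^ dd := by
            rw [mul_pow, mul_pow, ← pow_mul]; ring
    have h5 : xx ^ dd * (PP.card * (T ^ e₁ * S ^ e₂)) ≤ xx ^ dd *
        (dd ^ dd * (2 ^ dd * 2 ^ (dd * dd)) * 2 ^ dd *
          (T ^ Fintype.card I * S ^ Fintype.card J)) := by
      refine h1.trans (h3.trans ?_)
      calc dd ^ dd * (2 ^ dd * ((2 ^ h * (xx + w)) ^ dd * T ^ Fintype.card I *
            S ^ Fintype.card J))
          ≤ dd ^ dd * (2 ^ dd * (((2 ^ (dd * dd) * 2 ^ dd) * xx ^ dd) * T ^ Fintype.card I *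
            S ^ Fintype.card J)) := by gcongr
        _ = _ := by ring
    exact Nat.le_of_mul_le_mul_left h5 (by positivity)
  -- dimensions
  set n₀ := finrank K (D.spanX Gs) with hn₀
  set m₀ := finrank ℤ (D.rel Gs) with hm₀
  have hsub1 : s₀.toLeft.card ≤ e₁ := Finset.card_le_card (by
    intro i hi
    rw [Finset.mem_toLeft] at hi ⊢
    exact hs's₀ hi)
  have hsub2 : s₀.card ≤ s'.card := Finset.card_le_card hs's₀
  have hcards₀ : s₀.toLeft.card + s₀.toRight.card = s₀.card :=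
    Finset.card_toLeft_add_card_toRight
  have hn₀I : n₀ ≤ Fintype.card I := by
    rw [← hs₀1]
    exact Finset.card_le_univ _
  have hm₀J : m₀ ≤ Fintype.card J := by omega
  refine ⟨Gs, ?_, ?_⟩
  · by_contra hcon
    push Not at hcon
    obtain ⟨h1, h2⟩ := hcon
    have h3 : s₀.card = Fintype.card (I ⊕ J) := by
      rw [hcard]; omega
    have h4 : s₀ = Finset.univ := (Finset.card_eq_iff_eq_univ s₀).mp h3
    have h5 : P = ⊥ := by
      rw [eq_bot_iff]
      intro q hq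
      have := hind₀ q (by rw [h4]; simp) hq
      rw [this]; exact zero_mem _
    have h6 := hhpos r (by omega)
    rw [h5, Ideal.height_bot] at hPh
    have h7 : h = 0 := by exact_mod_cast hPh.symm
    omega
  · refine hs3.trans ?_
    rw [← hPPcard]
    have h1 : T ^ n₀ * S ^ (Fintype.card J - m₀) ≤ T ^ e₁ * S ^ e₂ := by
      have h2 : n₀ ≤ e₁ := by omega
      have h3 : Fintype.card J - m₀ ≤ (e₁ - n₀) + e₂ := by omega
      calc T ^ n₀ * S ^ (Fintype.card J - m₀) ≤ T ^ n₀ * S ^ ((e₁ - n₀) + e₂) :=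
            Nat.mul_le_mul_left _ (Nat.pow_le_pow_right hS h3)
        _ = T ^ n₀ * S ^ (e₁ - n₀) * S ^ e₂ := by rw [pow_add]; ring
        _ ≤ T ^ n₀ * T ^ (e₁ - n₀) * S ^ e₂ :=
            Nat.mul_le_mul_right _ (Nat.mul_le_mul_left _ (Nat.pow_le_pow_left hST _))
        _ = T ^ e₁ * S ^ e₂ := by rw [← pow_add]; congr 2; omega
    have h2 : (T ^ n₀ * S ^ (Fintype.card J - m₀)) * PP.card ≤
        (T ^ n₀ * S ^ (Fintype.card J - m₀)) * (dd ^ dd * (2 ^ dd * 2 ^ (dd * dd)) * 2 ^ dd *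
          (T ^ (Fintype.card I - n₀) * S ^ m₀)) := by
      calc (T ^ n₀ * S ^ (Fintype.card J - m₀)) * PP.card ≤ (T ^ e₁ * S ^ e₂) * PP.card :=
            Nat.mul_le_mul_right _ h1
        _ = PP.card * (T ^ e₁ * S ^ e₂) := mul_comm _ _
        _ ≤ _ := hkey
        _ = dd ^ dd * (2 ^ dd * 2 ^ (dd * dd)) * 2 ^ dd *
          (T ^ (n₀ + (Fintype.card I - n₀)) * S ^ ((Fintype.card J - m₀) + m₀)) := by
            congr 3
            · omega
            · omega
        _ = _ := by rw [pow_add, pow_add]; ring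
    exact Nat.le_of_mul_le_mul_left h2 (by positivity)

end Pool.Agent.Helper17.SL
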