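import Pool.Agent.Helper69.SL.ZA
import Pool.Agent.Helper72.SL.ZB
import Pool.Agent.Helper83.SL.ZC
import Pool.Agent.Helper91.SL.ZD
import Pool.Agent.Helper33.SL.ZE1
import Pool.Agent.Helper50.SL.ZE2
import Pool.Agent.Helper7.SL.ZF
import Pool.Agent.Helper34.SL.ZG
import Pool.Agent.Helper90.SL.ZH
import Pool.Agent.Helper59.SL.ZI
import Pool.Agent.Helper51.SL.ZJ
import Pool.Agent.Helper33.SL.SUB
import Pool.Agent.Helper16.SL.LA
import Pool.Agent.Helper91.SL.LB
import Pool.Agent.Helper55.SL.SA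
import Pool.Agent.Helper68.SL.SB
import Pool.Agent.Helper34.SL.SC
import Pool.Agent.Helper40.SL.SIXA
import Pool.Agent.Helper87.SL.BBA
import Pool.Agent.Helper70.SL.TRANSA
import Pool.Agent.Helper60.SL.DETP
import Pool.Agent.Helper40.SL.RK1
import Pool.Agent.Helper48.SL.RK2
import Pool.Agent.Helper42.SLR.RB
import Pool.Agent.Helper17.SL.ZEA
import Pool.Agent.Helper17.SL.GENA
import Pool.Agent.Helper17.SL.RBB

/-!
# Project SL: the general theorem, the strong six exponentials theorem, Baker-Brumer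
-/

namespace Pool.Agent.Helper17.SL

universe u v w x y

/-- The zero estimate. -/
theorem ze_holds : S_ZE.{u, x, y} :=
  ze PkZA.thm PkZB.thm PkZC.thm PkZD.thm PkZE1.thm PkZE2.thm (PkZG.thm PkZF.thm) PkZH.thm
    Pool.Agent.Helper59.SL.PkZI.thm PkZJ.thm

/-- The general theorem. -/
theorem gen_holds : S_GEN.{u, v, w, x, y} :=
  gen (rb_bridge Pool.Agent.Helper42.SLR.rb_holds) ze_holds PkDETP.thm PkRK1.thm PkRK2.thm
    PkZB.thm PkZC.thm

/-- The strong `p`-adic six exponentials theorem. -/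
theorem six_holds : S_SIX.{u, v, w, x} :=
  PkSIXA.thm gen_holds (PkLA.thm PkSUB.thm) (PkLB.thm PkSUB.thm) PkSA.thm PkSB.thm PkSC.thm

/-- The `p`-adic theorem of Baker and Brumer (for units). -/
theorem bb_holds : S_BB.{u, v} := PkBBA.thm gen_holds PkSC.thm

/-- Transfer of relations. -/
theorem trans_holds : S_TRANS.{u, v, w, x} := PkTRANSA.thm bb_holds

end Pool.Agent.Helper17.SL
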