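import Pool.Agent.Helper17.SL.GoalsA
import Pool.Agent.Helper51.SixExp.Half

/-!
# Project SL: target A
-/

namespace Pool.Agent.Helper17.SL

open Pool.Agent.Helper51.SigLeo Pool.Agent.Helper51.SixExp NumberField Module TensorProduct

set_option linter.unusedSectionVars false

universe u v w x y z uF

section lemmas

variable {K H : Type*} [Field K] [Field H] [Algebra K H] [Fintype (H ≃ₐ[K] H)]

theorem unitsHom_comp (h g : H ≃ₐ[K] H) (u : Additive (𝓞 H)ˣ) :
    unitsHom h (unitsHom g u) = unitsHom (h * g) u := rfl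

theorem Phi_tchi {E A W : Type*} [Field E] [CommRing A] [AddCommGroup W] [Module A W]
    (j : E →+* A) (ℓ : Additive (𝓞 H)ˣ →+ W) (χ : (H ≃ₐ[K] H) →* Eˣ) (u : Additive (𝓞 H)ˣ) :
    Phi j ℓ (tchi χ u) = ∑ g : H ≃ₐ[K] H, j ((χ g⁻¹ : Eˣ) : E) • ℓ (unitsHom g u) := by
  unfold tchi
  rw [map_sum]
  rfl

/-- Translation by an element of the Galois group. -/
theorem Phi_tchi_comp {E A W : Type*} [Field E] [CommRing A] [AddCommGroup W] [Module A W]
    (j : E →+* A) (ℓ : Additive (𝓞 H)ˣ →+ W) (χ : (H ≃ₐ[K] H) →* Eˣ) (u : Additive (𝓞 H)ˣ)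
    (h : H ≃ₐ[K] H) :
    Phi j (ℓ.comp (unitsHom h)) (tchi χ u) = j ((χ h : Eˣ) : E) • Phi j ℓ (tchi χ u) := by
  rw [Phi_tchi, Phi_tchi, Finset.smul_sum]
  rw [← Fintype.sum_equiv (Equiv.mulLeft h) (fun g ↦ j ((χ h : Eˣ) : E) •
    j ((χ (h * g)⁻¹ : Eˣ) : E) • ℓ (unitsHom (h * g) u)) (fun g ↦ j ((χ h : Eˣ) : E) •
    j ((χ g⁻¹ : Eˣ) : E) • ℓ (unitsHom g u)) (fun g ↦ rfl)]
  refine Finset.sum_congr rfl fun g _ ↦ ?_
  rw [AddMonoidHom.comp_apply, unitsHom_comp, ← mul_smul]
  congr 1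
  have h1 : χ g⁻¹ = χ h * χ (h * g)⁻¹ := by
    rw [map_inv, map_inv, map_mul, mul_inv, mul_inv_cancel_left]
  rw [h1, Units.val_mul, map_mul]

theorem archLog_conj (ρ : H →+* ℂ) : archLog (ComplexEmbedding.conjugate ρ) = archLog ρ := by
  apply AddMonoidHom.ext
  intro u
  show ((Real.log ‖star (ρ ((u.toMul : (𝓞 H)ˣ) : H))‖ : ℝ) : ℂ) = _
  rw [norm_star]
  rfl

theorem archLog_comp (ρ : H →+* ℂ) (h : H ≃ₐ[K] H) :
    archLog (ρ.comp (h : H →+* H)) = (archLog ρ).comp (unitsHom h) := rfl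

end lemmas

/-- If the Galois group is trivial then `H` is CM. -/
theorem isCMField_of_card_one {F : Type uF} {K : Type u} {H : Type v} [Field F] [NumberField F]
    [IsTotallyReal F] [Field K] [NumberField K] [IsTotallyComplex K] [Algebra F K] [Field H]
    [NumberField H] [Algebra K H] (hKF : finrank F K = 2) (hH : finrank K H = 1) :
    IsCMField H := by
  let _ : Algebra F H := ((algebraMap K H).comp (algebraMap F K)).toAlgebra
  have : IsScalarTower F K H := IsScalarTower.of_algebraMap_eq fun _ ↦ rfl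
  have hTC : IsTotallyComplex H := isTotallyComplex_of_algebra K H
  have hfd : FiniteDimensional F K := FiniteDimensional.of_finrank_pos (by omega)
  have hfd' : FiniteDimensional K H := FiniteDimensional.of_finrank_pos (by omega)
  have : Algebra.IsQuadraticExtension F H := ⟨by
    rw [← finrank_mul_finrank F K H, hKF, hH]⟩
  exact IsCMField.ofCMExtension F H

section main

variable {F : Type uF} {K : Type u} {H : Type v} {Ω : Type w} [Field F] [NumberField F]
  [IsTotallyReal F] [Field K] [NumberField K] [IsTotallyComplex K] [Algebra F K] [Field H]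
  [NumberField H] [Algebra K H] [Field Ω] [CharZero Ω]

/-- Conjugation on `K` is an automorphism. -/
theorem conj_comp_eq {A : Type*} [Field A] [CharZero A] (hKF : finrank F K = 2) (ι : A →+* ℂ)
    (κ κ' : K →+* A) (h : ι.comp κ' = ComplexEmbedding.conjugate (ι.comp κ)) (ι' : A →+* ℂ) :
    ι'.comp κ' = ComplexEmbedding.conjugate (ι'.comp κ) := by
  have hres : κ'.comp (algebraMap F K) = κ.comp (algebraMap F K) := by
    ext y
    apply ι.injective
    have h1 := RingHom.congr_fun h (algebraMap F K y)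
    have h2 := RingHom.congr_fun (conjugate_real ((ι.comp κ).comp (algebraMap F K))) y
    exact h1.trans h2
  have hne : κ' ≠ κ := by
    rintro rfl
    exact conjugate_ne _ h.symm
  rcases eq_or_eq_conjugate hKF (ι'.comp κ) (ι'.comp κ') (by
    rw [RingHom.comp_assoc, RingHom.comp_assoc, hres]) with h1 | h1
  · exfalso
    apply hne
    ext y
    apply ι'.injective
    exact RingHom.congr_fun h1 y
  · exact h1

/-- **Target A**: at most one complementary pair of CM types fails. -/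
theorem targetA (hSIX : S_SIX.{w, x, w, v}) (hTR : S_TRANS.{w, x, w, v})
    (h1 : S_GA1.{w, x, v}) (h2 : S_GA2.{u, v}) (h4 : S_GA4.{u, v, w}) (h5 : S_GA5.{x, u, v, w})
    (h6 : S_GA6.{v, w}) (h7 : S_GA7.{u, v, 0}) [IsAlgClosed Ω] [Algebra.IsAlgebraic ℚ Ω]
    (hd : finrank ℚ F = 2) (hKF : finrank F K = 2) [IsGalois K H] (hCM : ¬ IsCMField H) (p : ℕ)
    [Fact p.Prime] (k : Type x) [NormedField k] [NormedAlgebra ℚ_[p] k] [IsUltrametricDist k]
    [CompleteSpace k] (ιinf : Ω →+* ℂ) (ιp : Ω →+* k) (S₁ S₂ : Set (K →+* ℂ))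
    (hS₁ : IsCMType S₁) (hS₂ : IsCMType S₂) (hne : S₁ ≠ S₂) (hne' : S₂ ≠ S₁ᶜ)
    (χ : (H ≃ₐ[K] H) →* kˣ) (hχ : Function.Injective χ) (Λ : IwasawaLog p k) :
    InjectiveOn (finrank K H) χ unitsHom (logSigma ιinf ιp S₁ Λ) ∨
      InjectiveOn (finrank K H) χ unitsHom (logSigma ιinf ιp S₂ Λ) := by
  classical
  have hchar : CharZero k := charZero_of_padic p (k := k)
  have hfd : FiniteDimensional K H := FiniteDimensional.right ℚ K H
  have hTC : IsTotallyComplex H := isTotallyComplex_of_algebra K H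
  by_contra hcon
  push Not at hcon
  obtain ⟨hf1, hf2⟩ := hcon
  -- the embeddings of `K`
  obtain ⟨φ, hφ1, hφ2⟩ : ∃ φ, φ ∈ S₁ ∧ ComplexEmbedding.conjugate φ ∈ S₂ := by
    by_contra hall
    push Not at hall
    apply hne
    ext φ
    constructor
    · intro h1
      exact (hS₂ φ).mpr (hall φ h1)
    · intro h2
      by_contra h1
      have h3 : ComplexEmbedding.conjugate φ ∈ S₁ := by
        by_contra h4
        exact h1 ((hS₁ φ).mpr h4)
      have h5 := hall _ h3
      rw [ComplexEmbedding.involutive_conjugate] at h5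
      exact h5 h2
  obtain ⟨ψ, hψ1, hψ2⟩ : ∃ ψ, ψ ∈ S₁ ∧ ψ ∈ S₂ := by
    by_contra hall
    push Not at hall
    apply hne'
    ext ψ
    rw [Set.mem_compl_iff]
    constructor
    · intro h2 h1
      exact hall ψ h1 h2
    · intro h1
      have h3 : ComplexEmbedding.conjugate ψ ∈ S₁ := by
        by_contra h4
        exact h1 ((hS₁ ψ).mpr h4)
      exact (hS₂ ψ).mpr (hall _ h3)
  have hφψ : φ.comp (algebraMap F K) ≠ ψ.comp (algebraMap F K) := by
    intro h
    rcases eq_or_eq_conjugate hKF φ ψ h with h1 | h1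
    · rw [h1] at hψ2
      exact (hS₂ φ).mp hψ2 hφ2
    · rw [h1] at hψ1
      exact (hS₁ φ).mp hφ1 hψ1
  obtain ⟨κ₀, hκ₀⟩ := exists_lift_embedding ιinf ψ
  obtain ⟨κ₁, hκ₁⟩ := exists_lift_embedding ιinf φ
  obtain ⟨e₀, he₀⟩ := exists_extend_embedding (H := H) κ₀
  obtain ⟨e₁, he₁⟩ := exists_extend_embedding (H := H) κ₁
  obtain ⟨e₂, he₂⟩ := exists_lift_embedding ιinf (ComplexEmbedding.conjugate (ιinf.comp e₁))
  have hr0 : ιinf.comp (e₀.comp (algebraMap K H)) = ψ := by rw [he₀, hκ₀]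
  have hr1 : ιinf.comp (e₁.comp (algebraMap K H)) = φ := by rw [he₁, hκ₁]
  have hr2 : ιinf.comp (e₂.comp (algebraMap K H)) = ComplexEmbedding.conjugate φ := by
    rw [← RingHom.comp_assoc, he₂, ← hr1, ← RingHom.comp_assoc,
      ComplexEmbedding.conjugate_comp]
  -- the places of `K` below `e₀`, `e₁` are different
  have hplace : ∀ ι' : Ω →+* ℂ, InfinitePlace.mk ((ι'.comp e₀).comp (algebraMap K H)) ≠
      InfinitePlace.mk ((ι'.comp e₁).comp (algebraMap K H)) := by
    intro ι' h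
    have key : ((ι'.comp e₀).comp (algebraMap K H)).comp (algebraMap F K) =
        ((ι'.comp e₁).comp (algebraMap K H)).comp (algebraMap F K) := by
      rcases InfinitePlace.mk_eq_iff.mp h with h1 | h1
      · rw [h1]
      · rw [← h1, ComplexEmbedding.conjugate_comp, conjugate_real]
    apply hφψ
    rw [← hr0, ← hr1]
    ext y
    have h3 := RingHom.congr_fun key y
    have h4 : e₀ (algebraMap K H (algebraMap F K y)) = e₁ (algebraMap K H (algebraMap F K y)) :=
      ι'.injective h3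
    show ιinf (e₁ (algebraMap K H (algebraMap F K y))) =
      ιinf (e₀ (algebraMap K H (algebraMap F K y)))
    rw [h4]
  have hK4 : finrank ℚ K = 4 := by rw [← finrank_mul_finrank ℚ F K, hd, hKF]
  -- the field of values
  obtain ⟨E, hE, χ', hχ'⟩ := h1 Ω k ιp (H ≃ₐ[K] H) χ
  set lam : E →+* Ω := algebraMap E Ω with hlam
  have hj : ∀ g, (ιp.comp lam) ((χ' g : Eˣ) : E) = χ g := fun g ↦ hχ' g
  have hχ'inj : Function.Injective χ' := by
    intro g g' hg
    apply hχ
    apply Units.ext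
    rw [← hj, ← hj, hg]
  set ε : E →+* ℂ := ιinf.comp lam with hε
  have hχ1 : (Units.map (ε : E →* ℂ)).comp χ' ≠ 1 := by
    intro h
    apply hCM
    have htriv : ∀ g : H ≃ₐ[K] H, g = 1 := by
      intro g
      apply hχ'inj
      rw [map_one]
      apply Units.ext
      apply ε.injective
      have := congrArg (fun z : ℂˣ ↦ (z : ℂ)) (DFunLike.congr_fun h g)
      simpa using this
    have hcard : finrank K H = 1 := by
      rw [← IsGalois.card_aut_eq_finrank, Nat.card_eq_one_iff_unique]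
      exact ⟨⟨fun a b ↦ by rw [htriv a, htriv b]⟩, ⟨1⟩⟩
    exact isCMField_of_card_one (F := F) hKF hcard
  -- the archimedean determinant
  have hArch : ∀ (u : Additive (𝓞 H)ˣ) (ρ : H →+* ℂ), Phi ε (archLog ρ) (tchi χ' u) =
      ∑ g, (((Units.map (ε : E →* ℂ)).comp χ' g⁻¹ : ℂˣ) : ℂ) * archLog ρ (unitsHom g u) := by
    intro u ρ
    rw [Phi_tchi]
    rfl
  obtain ⟨u₁, u₂, hdet⟩ := h2 K H ((Units.map (ε : E →* ℂ)).comp χ') (ιinf.comp e₀)
    (ιinf.comp e₁) hχ1 (hplace ιinf)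
  simp only [← hArch] at hdet
  have hstr := h4 K H E ε χ' (ιinf.comp e₀) (ιinf.comp e₁) u₁ u₂ hK4 (hplace ιinf) hdet
  -- the determinant is nonzero for all embeddings
  have hdet' : ∀ ι' : Ω →+* ℂ,
      Phi ε (archLog (ι'.comp e₀)) (tchi χ' u₁) * Phi ε (archLog (ι'.comp e₁)) (tchi χ' u₂) -
      Phi ε (archLog (ι'.comp e₁)) (tchi χ' u₁) * Phi ε (archLog (ι'.comp e₀)) (tchi χ' u₂) ≠
        0 := by
    intro ι' h0
    obtain ⟨v₁, v₂, hv⟩ := h2 K H ((Units.map (ε : E →* ℂ)).comp χ') (ι'.comp e₀)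
      (ι'.comp e₁) hχ1 (hplace ι')
    simp only [← hArch] at hv
    apply hv
    obtain ⟨a, b, hab⟩ := hstr v₁
    obtain ⟨c, d, hcd⟩ := hstr v₂
    rw [hab, hcd]
    simp only [map_add, Phi_smul, smul_eq_mul]
    linear_combination (ε a * ε d - ε b * ε c) * h0
  -- the matrix
  set j : E →+* k := ιp.comp lam with hjdef
  let e : Fin 3 → (H →+* Ω) := ![e₀, e₁, e₂]
  let u : Fin 2 → Additive (𝓞 H)ˣ := ![u₁, u₂]
  let M : Fin 2 → Fin 3 → k := fun i q ↦ Phi j (logUnits Λ (ιp.comp (e q))) (tchi χ' (u i))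
  have hM : ∀ i q, M i q = ∑ g : H ≃ₐ[K] H, ιp (lam ((χ' g⁻¹ : Eˣ) : E)) *
      Λ.toFun (Units.map (ιp : Ω →* k) (img (e q) (unitsHom g (u i)).toMul)) := by
    intro i q
    show Phi j _ _ = _
    rw [Phi_tchi]
    refine Finset.sum_congr rfl fun g _ ↦ ?_
    rw [smul_eq_mul, log_img]
    rfl
  have hd1 := h5 k K H E j χ χ' (logSigma ιinf ιp S₁ Λ) u₁ u₂ hj hstr hf1
    (logUnits Λ (ιp.comp e₀)) ⟨e₀, by rw [hr0]; exact hψ1, rfl⟩
    (logUnits Λ (ιp.comp e₁)) ⟨e₁, by rw [hr1]; exact hφ1, rfl⟩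
  have hd2 := h5 k K H E j χ χ' (logSigma ιinf ιp S₂ Λ) u₁ u₂ hj hstr hf2
    (logUnits Λ (ιp.comp e₀)) ⟨e₀, by rw [hr0]; exact hψ2, rfl⟩
    (logUnits Λ (ιp.comp e₂)) ⟨e₂, by rw [hr2]; exact hφ2, rfl⟩
  have hd1' : M 0 0 * M 1 1 - M 0 1 * M 1 0 = 0 := hd1
  have hd2' : M 0 0 * M 1 2 - M 0 2 * M 1 0 = 0 := hd2
  -- transfer of relations
  have htrans : ∀ (a : Fin 2 → Fin 3 → E), ∑ i, ∑ q, j (a i q) * M i q = 0 →
      ∀ ι' : Ω →+* ℂ, ∑ i, ∑ q, ε (a i q) * Phi ε (archLog (ι'.comp (e q))) (tchi χ' (u i)) = 0 := by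
    intro a ha ι'
    have h3 := hTR p k Ω ιp Λ E lam ((Fin 2 × Fin 3) × (H ≃ₐ[K] H))
      (fun r ↦ a r.1.1 r.1.2 * ((χ' r.2⁻¹ : Eˣ) : E))
      (fun r ↦ img (e r.1.2) (unitsHom r.2 (u r.1.1)).toMul) (fun r ↦ img_isUnitAlg _ _) (by
        rw [Fintype.sum_prod_type, Fintype.sum_prod_type, ← ha]
        refine Finset.sum_congr rfl fun i _ ↦ Finset.sum_congr rfl fun q _ ↦ ?_
        rw [hM, Finset.mul_sum]
        refine Finset.sum_congr rfl fun g _ ↦ ?_
        rw [map_mul, map_mul, mul_assoc]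
        rfl) ε ι'
    rw [Fintype.sum_prod_type, Fintype.sum_prod_type] at h3
    rw [← h3]
    refine Finset.sum_congr rfl fun i _ ↦ Finset.sum_congr rfl fun q _ ↦ ?_
    rw [Phi_tchi, Finset.mul_sum]
    refine Finset.sum_congr rfl fun g _ ↦ ?_
    rw [map_mul, smul_eq_mul, mul_assoc]
    rfl
  -- the first column is not zero
  have hcol : M 0 0 ≠ 0 ∨ M 1 0 ≠ 0 := by
    by_contra hcol
    push Not at hcol
    obtain ⟨hc0, hc1⟩ := hcol
    have e1 := htrans ![![1, 0, 0], ![0, 0, 0]] (by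
      simp [Fin.sum_univ_two, Fin.sum_univ_three, hc0]) ιinf
    have e2 := htrans ![![0, 0, 0], ![1, 0, 0]] (by
      simp [Fin.sum_univ_two, Fin.sum_univ_three, hc1]) ιinf
    simp only [Fin.sum_univ_two, Fin.sum_univ_three, Matrix.cons_val_zero, Matrix.cons_val_one,
      Matrix.cons_val, map_one, map_zero, one_mul, zero_mul, add_zero, zero_add] at e1 e2
    apply hdet
    have e1' : Phi ε (archLog (ιinf.comp e₀)) (tchi χ' u₁) = 0 := e1
    have e2' : Phi ε (archLog (ιinf.comp e₀)) (tchi χ' u₂) = 0 := e2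
    rw [e1', e2']; ring
  have hd3' : M 0 1 * M 1 2 - M 0 2 * M 1 1 = 0 := by
    rcases hcol with h | h
    · apply mul_left_cancel₀ h
      linear_combination (M 0 1) * hd2' - (M 0 2) * hd1'
    · apply mul_left_cancel₀ h
      linear_combination (M 1 1) * hd2' - (M 1 2) * hd1'
  have hminor : ∀ i i' q q', M i q * M i' q' = M i q' * M i' q := by
    intro i i' q q'
    fin_cases i <;> fin_cases i' <;> fin_cases q <;> fin_cases q' <;>
      simp only [Fin.zero_eta, Fin.mk_one, Fin.reduceFinMk, Fin.isValue] <;>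
      first
        | ring1
        | linear_combination hd1'
        | linear_combination -hd1'
        | linear_combination hd2'
        | linear_combination -hd2'
        | linear_combination hd3'
        | linear_combination -hd3'
  rcases hSIX p k Ω ιp Λ E lam 2 3 (H ≃ₐ[K] H) (fun i q g ↦ ((χ' g⁻¹ : Eˣ) : E))
    (fun i q g ↦ img (e q) (unitsHom g (u i)).toMul) M (fun i q g ↦ img_isUnitAlg _ _) hM
    (by norm_num) hminor with ⟨a, ha0, ha⟩ | ⟨c, hc0, hc⟩
  · -- dependent rows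
    apply ha0
    have key : ∀ q : Fin 3, ∑ i, ε (a i) *
        Phi ε (archLog (ιinf.comp (e q))) (tchi χ' (u i)) = 0 := by
      intro q
      have e1 := htrans (fun i q' ↦ if q' = q then a i else 0) (by
        rw [← ha q]
        refine Finset.sum_congr rfl fun i _ ↦ ?_
        rw [Finset.sum_eq_single q]
        · rw [if_pos rfl]; rfl
        · intro q' _ hq'
          rw [if_neg hq', map_zero, zero_mul]
        · intro h; exact absurd (Finset.mem_univ _) h) ιinf
      rw [← e1]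
      refine Finset.sum_congr rfl fun i _ ↦ ?_
      rw [Finset.sum_eq_single q]
      · rw [if_pos rfl]
      · intro q' _ hq'
        rw [if_neg hq', map_zero, zero_mul]
      · intro h; exact absurd (Finset.mem_univ _) h
    have k0 := key 0
    have k1 := key 1
    rw [Fin.sum_univ_two] at k0 k1
    have k0' : ε (a 0) * Phi ε (archLog (ιinf.comp e₀)) (tchi χ' u₁) +
        ε (a 1) * Phi ε (archLog (ιinf.comp e₀)) (tchi χ' u₂) = 0 := k0
    have k1' : ε (a 0) * Phi ε (archLog (ιinf.comp e₁)) (tchi χ' u₁) +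
        ε (a 1) * Phi ε (archLog (ιinf.comp e₁)) (tchi χ' u₂) = 0 := k1
    have z0 : ε (a 0) = 0 := by
      apply (mul_eq_zero.mp _).resolve_right hdet
      linear_combination (Phi ε (archLog (ιinf.comp e₁)) (tchi χ' u₂)) * k0' -
        (Phi ε (archLog (ιinf.comp e₀)) (tchi χ' u₂)) * k1'
    have z1 : ε (a 1) = 0 := by
      apply (mul_eq_zero.mp _).resolve_right hdet
      linear_combination (Phi ε (archLog (ιinf.comp e₀)) (tchi χ' u₁)) * k1' -
        (Phi ε (archLog (ιinf.comp e₁)) (tchi χ' u₁)) * k0'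
    funext i
    fin_cases i
    · exact (map_eq_zero ε).mp z0
    · exact (map_eq_zero ε).mp z1
  · -- dependent columns
    have key : ∀ (ι' : Ω →+* ℂ) (i : Fin 2), ∑ q, ε (c q) *
        Phi ε (archLog (ι'.comp (e q))) (tchi χ' (u i)) = 0 := by
      intro ι' i
      have e1 := htrans (fun i' q ↦ if i' = i then c q else 0) (by
        rw [Finset.sum_eq_single i]
        · rw [← hc i]
          refine Finset.sum_congr rfl fun q _ ↦ ?_
          rw [if_pos rfl]; rfl
        · intro i' _ hi'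
          apply Finset.sum_eq_zero
          intro q _
          rw [if_neg hi', map_zero, zero_mul]
        · intro h; exact absurd (Finset.mem_univ _) h) ι'
      rw [Finset.sum_eq_single i] at e1
      · rw [← e1]
        refine Finset.sum_congr rfl fun q _ ↦ ?_
        rw [if_pos rfl]
      · intro i' _ hi'
        apply Finset.sum_eq_zero
        intro q _
        rw [if_neg hi', map_zero, zero_mul]
      · intro h; exact absurd (Finset.mem_univ _) h
    -- the Galois element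
    have hex : ∀ ι' : Ω →+* ℂ, ∃ h : H ≃ₐ[K] H,
        ComplexEmbedding.conjugate (ι'.comp e₂) = (ι'.comp e₁).comp (h : H →+* H) := by
      intro ι'
      apply h7 K H ℂ (ι'.comp e₁) (ComplexEmbedding.conjugate (ι'.comp e₂))
      have h8 := conj_comp_eq (F := F) hKF ιinf (e₁.comp (algebraMap K H))
        (e₂.comp (algebraMap K H)) (by rw [hr1, hr2]) ι'
      rw [ComplexEmbedding.conjugate_comp]
      rw [RingHom.comp_assoc, RingHom.comp_assoc, h8, ComplexEmbedding.involutive_conjugate]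
    have hrel : ∀ (ι' : Ω →+* ℂ) (h : H ≃ₐ[K] H),
        ComplexEmbedding.conjugate (ι'.comp e₂) = (ι'.comp e₁).comp (h : H →+* H) →
        c 0 = 0 ∧ c 1 + c 2 * ((χ' h : Eˣ) : E) = 0 := by
      intro ι' h hh
      have h9 : ∀ i, Phi ε (archLog (ι'.comp e₂)) (tchi χ' (u i)) = ε ((χ' h : Eˣ) : E) *
          Phi ε (archLog (ι'.comp e₁)) (tchi χ' (u i)) := by
        intro i
        rw [← archLog_conj (ι'.comp e₂), hh, archLog_comp, Phi_tchi_comp, smul_eq_mul]
      have k0 := key ι' 0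
      have k1 := key ι' 1
      rw [Fin.sum_univ_three] at k0 k1
      have k0' : ε (c 0) * Phi ε (archLog (ι'.comp e₀)) (tchi χ' u₁) +
          ε (c 1) * Phi ε (archLog (ι'.comp e₁)) (tchi χ' u₁) +
          ε (c 2) * (ε ((χ' h : Eˣ) : E) * Phi ε (archLog (ι'.comp e₁)) (tchi χ' u₁)) = 0 := by
        have h90 : Phi ε (archLog (ι'.comp e₂)) (tchi χ' u₁) = ε ((χ' h : Eˣ) : E) *
          Phi ε (archLog (ι'.comp e₁)) (tchi χ' u₁) := h9 0
        rw [← h90]; exact k0
      have k1' : ε (c 0) * Phi ε (archLog (ι'.comp e₀)) (tchi χ' u₂) +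
          ε (c 1) * Phi ε (archLog (ι'.comp e₁)) (tchi χ' u₂) +
          ε (c 2) * (ε ((χ' h : Eˣ) : E) * Phi ε (archLog (ι'.comp e₁)) (tchi χ' u₂)) = 0 := by
        have h91 : Phi ε (archLog (ι'.comp e₂)) (tchi χ' u₂) = ε ((χ' h : Eˣ) : E) *
          Phi ε (archLog (ι'.comp e₁)) (tchi χ' u₂) := h9 1
        rw [← h91]; exact k1
      have z0 : ε (c 0) = 0 := by
        apply (mul_eq_zero.mp _).resolve_right (hdet' ι')
        linear_combination (Phi ε (archLog (ι'.comp e₁)) (tchi χ' u₂)) * k0' -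
          (Phi ε (archLog (ι'.comp e₁)) (tchi χ' u₁)) * k1'
      have z1 : ε (c 1) + ε (c 2) * ε ((χ' h : Eˣ) : E) = 0 := by
        apply (mul_eq_zero.mp _).resolve_right (hdet' ι')
        linear_combination (Phi ε (archLog (ι'.comp e₀)) (tchi χ' u₁)) * k1' -
          (Phi ε (archLog (ι'.comp e₀)) (tchi χ' u₂)) * k0'
      refine ⟨(map_eq_zero ε).mp z0, (map_eq_zero ε).mp ?_⟩
      rw [map_add, map_mul]; exact z1
    obtain ⟨h₀, hh₀⟩ := hex ιinf
    obtain ⟨hc00, hc12⟩ := hrel ιinf h₀ hh₀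
    have hc2 : c 2 ≠ 0 := by
      intro h
      rw [h, zero_mul, add_zero] at hc12
      apply hc0
      funext q
      fin_cases q
      · exact hc00
      · exact hc12
      · exact h
    apply hCM
    refine h6 H Ω e₂ (e₁.comp (h₀ : H →+* H)) fun ι' ↦ ?_
    obtain ⟨h, hh⟩ := hex ι'
    obtain ⟨-, hc12'⟩ := hrel ι' h hh
    have heq : h = h₀ := by
      apply hχ'inj
      apply Units.ext
      apply mul_left_cancel₀ hc2
      linear_combination hc12' - hc12
    rw [hh, heq]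
    rfl

end main

end Pool.Agent.Helper17.SL
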