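import Pool.Agent.Helper12.SL.GA1
import Pool.Agent.Helper8.SL.GA2
import Pool.Agent.Helper26.SL.GA3
import Pool.Agent.Helper42.SL.GA4
import Pool.Agent.Helper45.SL.GA5
import Pool.Agent.Helper7.SL.GA6
import Pool.Agent.Helper12.SL.GA7
import Pool.Agent.Helper17.SL.Chain
import Pool.Agent.Helper17.SL.TargetA

/-!
# Project SL: target A, unconditional
-/

namespace Pool.Agent.Helper17.SL

open Pool.Agent.Helper51.SigLeo Pool.Agent.Helper51.SixExp NumberField Module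

universe u v w x uF

theorem mainA {F : Type uF} {K : Type u} {H : Type v} {Ω : Type w} [Field F] [NumberField F]
    [IsTotallyReal F] [Field K] [NumberField K] [IsTotallyComplex K] [Algebra F K] [Field H]
    [NumberField H] [Algebra K H] [Field Ω] [CharZero Ω] [IsAlgClosed Ω]
    [Algebra.IsAlgebraic ℚ Ω] (hd : finrank ℚ F = 2) (hKF : finrank F K = 2) [IsGalois K H]
    (hCM : ¬ IsCMField H) (p : ℕ) [Fact p.Prime] (k : Type x) [NormedField k]
    [NormedAlgebra ℚ_[p] k] [IsUltrametricDist k] [CompleteSpace k] (ιinf : Ω →+* ℂ)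
    (ιp : Ω →+* k) (S₁ S₂ : Set (K →+* ℂ)) (hS₁ : IsCMType S₁) (hS₂ : IsCMType S₂)
    (hne : S₁ ≠ S₂) (hne' : S₂ ≠ S₁ᶜ) (χ : (H ≃ₐ[K] H) →* kˣ) (hχ : Function.Injective χ)
    (Λ : IwasawaLog p k) :
    InjectiveOn (finrank K H) χ unitsHom (logSigma ιinf ιp S₁ Λ) ∨
      InjectiveOn (finrank K H) χ unitsHom (logSigma ιinf ιp S₂ Λ) :=
  targetA six_holds trans_holds PkGA1.thm PkGA2.thm (PkGA4.thm PkGA3.thm) PkGA5.thm PkGA6.thm
    PkGA7.thm hd hKF hCM p k ιinf ιp S₁ S₂ hS₁ hS₂ hne hne' χ hχ Λ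

end Pool.Agent.Helper17.SL
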