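import Pool.Agent.Helper17.SL.Defs
import Pool.Agent.Helper51.SixExp.CM

/-!
# Project SL: the Galois part, target A

Paper proof: PAPER.md, section 7. `H/K` is a finite Galois extension of number fields, `G` its
group, `χ : G → Eˣ` a character with values in a number field `E`, `U` the group of units of `H`.
-/

namespace Pool.Agent.Helper17.SL

open Pool.Agent.Helper51.SigLeo Pool.Agent.Helper51.SixExp NumberField Module TensorProduct

universe u v w x y z

/-- The map `e ⊗ m ↦ j(e) ℓ(m)`. -/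
noncomputable def Phi {E A M W : Type*} [Field E] [CommRing A] [AddCommGroup M] [AddCommGroup W]
    [Module A W] (j : E →+* A) (ℓ : M →+ W) : (E ⊗[ℤ] M) →+ W :=
  TensorProduct.liftAddHom
    { toFun := fun e ↦
        { toFun := fun m ↦ j e • ℓ m
          map_zero' := by simp
          map_add' := fun m m' ↦ by rw [map_add, smul_add] }
      map_zero' := by ext m; simp
      map_add' := fun e e' ↦ by ext m; simp [add_smul] }
    (fun n e m ↦ by
      show j (n • e) • ℓ m = j e • ℓ (n • m)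
      rw [map_zsmul, map_zsmul, smul_assoc, smul_comm])

theorem Phi_tmul {E A M W : Type*} [Field E] [CommRing A] [AddCommGroup M] [AddCommGroup W]
    [Module A W] (j : E →+* A) (ℓ : M →+ W) (e : E) (m : M) :
    Phi j ℓ (e ⊗ₜ[ℤ] m) = j e • ℓ m := rfl

theorem Phi_smul {E A M W : Type*} [Field E] [CommRing A] [AddCommGroup M] [AddCommGroup W]
    [Module A W] (j : E →+* A) (ℓ : M →+ W) (e : E) (x : E ⊗[ℤ] M) :
    Phi j ℓ (e • x) = j e • Phi j ℓ x := by
  induction x using TensorProduct.induction_on with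
  | zero => simp
  | tmul a m => rw [TensorProduct.smul_tmul', Phi_tmul, Phi_tmul, smul_eq_mul, map_mul, mul_smul]
  | add x y hx hy => rw [smul_add, map_add, map_add, smul_add, hx, hy]

/-- The archimedean logarithm `u ↦ log |ρ(u)|` on the units of `H`. -/
noncomputable def archLog {H : Type*} [Field H] (ρ : H →+* ℂ) : Additive (𝓞 H)ˣ →+ ℂ :=
  AddMonoidHom.mk' (fun u ↦ ((Real.log ‖ρ ((u.toMul : (𝓞 H)ˣ) : H)‖ : ℝ) : ℂ)) fun u v ↦ by
    rw [toMul_add, Units.val_mul, map_mul, map_mul, norm_mul, Real.log_mul (by simp) (by simp)]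
    push_cast
    rfl

/-- The element `∑_g χ(g⁻¹) ⊗ g u` of `E ⊗ U`. -/
noncomputable def tchi {K H E : Type*} [Field K] [Field H] [Algebra K H] [Field E]
    [Fintype (H ≃ₐ[K] H)] (χ : (H ≃ₐ[K] H) →* Eˣ) (u : Additive (𝓞 H)ˣ) :
    E ⊗[ℤ] Additive (𝓞 H)ˣ :=
  ∑ g : H ≃ₐ[K] H, ((χ g⁻¹ : Eˣ) : E) ⊗ₜ[ℤ] unitsHom g u

/-- **GA1** (descent of the character). The values of `χ` are roots of unity of `k`, they are images
of roots of unity of the algebraically closed field `Ω` (`X ^ n - 1` splits in `Ω`); `E` = the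
field generated by them (finitely many algebraic elements, see `exists_numberField` in
`Helper51/SixExp/UnitsAlg.lean`). -/
def S_GA1 : Prop := ∀ (Ω : Type u) [Field Ω] [CharZero Ω] [IsAlgClosed Ω] (k : Type v) [Field k]
  (ι : Ω →+* k) (G : Type w) [Group G] [Finite G] (χ : G →* kˣ),
  ∃ (E : IntermediateField ℚ Ω) (_ : NumberField E) (χ' : G →* Eˣ),
    ∀ g, ι (((χ' g : Eˣ) : E) : Ω) = χ g

/-- **GA2** (archimedean independence). `K` totally complex, `ρ₁`, `ρ₂` embeddings of `H` above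
different places of `K`, `χ ≠ 1`. Put `L_i(u) = ∑_g χ(g⁻¹) log |ρ_i(g u)|`. The places of the
`ρ_i ∘ g` are all distinct (`K` is totally complex). If `L_1 = 0`, `log_relation_const`
(`Helper51/SixExp/Arch.lean`, for the real and imaginary parts) says that the coefficients
`χ(g⁻¹)` at the places `ρ₁ ∘ g` and `0` at the other ones are equal, contradiction. Take `u₁` with
`L_1(u₁) ≠ 0`; if all the determinants with `u₁` vanish, the relation `L_1(u₁) L_2(u) -
L_2(u₁) L_1(u) = 0` has equal coefficients: `χ(g⁻¹) L_1(u₁)` does not depend on `g`, contradiction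
with `χ ≠ 1`. -/
def S_GA2 : Prop := ∀ (K : Type u) [Field K] [NumberField K] [IsTotallyComplex K] (H : Type v)
  [Field H] [NumberField H] [Algebra K H] [IsGalois K H] [Fintype (H ≃ₐ[K] H)]
  (χ : (H ≃ₐ[K] H) →* ℂˣ) (ρ₁ ρ₂ : H →+* ℂ), χ ≠ 1 →
  InfinitePlace.mk (ρ₁.comp (algebraMap K H)) ≠ InfinitePlace.mk (ρ₂.comp (algebraMap K H)) →
  ∃ u₁ u₂ : Additive (𝓞 H)ˣ,
    (∑ g, ((χ g⁻¹ : ℂˣ) : ℂ) * archLog ρ₁ (unitsHom g u₁)) *
      (∑ g, ((χ g⁻¹ : ℂˣ) : ℂ) * archLog ρ₂ (unitsHom g u₂)) -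
    (∑ g, ((χ g⁻¹ : ℂˣ) : ℂ) * archLog ρ₂ (unitsHom g u₁)) *
      (∑ g, ((χ g⁻¹ : ℂˣ) : ℂ) * archLog ρ₁ (unitsHom g u₂)) ≠ 0

/-- **GA3** (injectivity of the archimedean logarithms on `E ⊗ U`). Let `η_i` be a fundamental system
of units (`fundSystem`, `exist_unique_eq_mul_prod`); `x = ∑ e_i ⊗ η_i` (roots of unity are killed
since `E` is torsion free). For all places `∑ ε(e_i) log |ρ(η_i)| = 0`; the real and imaginary parts
give real relations between the vectors `logEmbedding η_i`, which are linearly independent over `ℝ`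
(`basisUnitLattice`, `Basis.ofZLatticeBasis`), so `ε(e_i) = 0`. -/
def S_GA3 : Prop := ∀ (H : Type u) [Field H] [NumberField H] (E : Type v) [Field E] (ε : E →+* ℂ)
  (x : E ⊗[ℤ] Additive (𝓞 H)ˣ), (∀ ρ : H →+* ℂ, Phi ε (archLog ρ) x = 0) → x = 0

/-- **GA4** (structure of the `χ`-part, dimension 2), uses GA3. `K` has degree `4` and is totally
complex, so every embedding of `H` is `ρ_i ∘ g` or its conjugate, `i = 1, 2`, `g ∈ G`. For `x` of
the form `tchi χ u` the function `f(ρ) = Phi ε (archLog ρ) x` satisfies `f(ρ ∘ h) = ε(χ(h)) f(ρ)` and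
`f(conj ρ) = f(ρ)`, so it is determined by `f(ρ₁), f(ρ₂)`; the functions of `u₁`, `u₂` are a basis
of the space of these functions: `f_u = a f_{u₁} + b f_{u₂}` with `a, b ∈ ℂ`, and by GA3 (for `ℂ`)
`tchi u - a tchi u₁ - b tchi u₂ = 0` in `ℂ ⊗ U`. So the three vectors `tchi χ u`, `tchi χ u₁`,
`tchi χ u₂` of `E ⊗ U` are linearly dependent over `E` (linear independence over `E` in `E ⊗ U`
implies independence over `ℂ` in `ℂ ⊗ U`, e.g. take coordinates in a fundamental system), and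
`u₁, u₂` are independent by the determinant. -/
def S_GA4 : Prop := ∀ (K : Type u) [Field K] [NumberField K] [IsTotallyComplex K] (H : Type v)
  [Field H] [NumberField H] [Algebra K H] [IsGalois K H] [Fintype (H ≃ₐ[K] H)]
  (E : Type w) [Field E] (ε : E →+* ℂ) (χ : (H ≃ₐ[K] H) →* Eˣ) (ρ₁ ρ₂ : H →+* ℂ)
  (u₁ u₂ : Additive (𝓞 H)ˣ), finrank ℚ K = 4 →
  InfinitePlace.mk (ρ₁.comp (algebraMap K H)) ≠ InfinitePlace.mk (ρ₂.comp (algebraMap K H)) →
  Phi ε (archLog ρ₁) (tchi χ u₁) * Phi ε (archLog ρ₂) (tchi χ u₂) -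
    Phi ε (archLog ρ₂) (tchi χ u₁) * Phi ε (archLog ρ₁) (tchi χ u₂) ≠ 0 →
  ∀ u, ∃ a b : E, tchi χ u = a • tchi χ u₁ + b • tchi χ u₂

/-- **GA5** (failure of injectivity). Let `x = e_χ(y) ≠ 0` be killed by the `ℓ ∈ T`; `y = ∑ c_s ⊗ v_s`
and `e_χ(y) = n⁻¹ ∑ c_s Phi j (v ↦ 1 ⊗ v) (tchi χ' v_s) = A z₁ + B z₂` with
`z_i = Phi j (v ↦ 1 ⊗ v) (tchi χ' u_i)`, `A, B ∈ k` not both zero. Then
`A Phi j ℓ (tchi u₁) + B Phi j ℓ (tchi u₂) = 0` for `ℓ = ℓ₁, ℓ₂`, so the determinant is zero. -/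
def S_GA5 : Prop := ∀ (k : Type u) [Field k] [CharZero k] (K : Type v) [Field K] (H : Type w)
  [Field H] [Algebra K H] [FiniteDimensional K H] [IsGalois K H] [Fintype (H ≃ₐ[K] H)]
  (E : Type x) [Field E] (j : E →+* k) (χ : (H ≃ₐ[K] H) →* kˣ) (χ' : (H ≃ₐ[K] H) →* Eˣ)
  (T : Set (Additive (𝓞 H)ˣ →+ k)) (u₁ u₂ : Additive (𝓞 H)ˣ),
  (∀ g, j ((χ' g : Eˣ) : E) = χ g) →
  (∀ u, ∃ a b : E, tchi χ' u = a • tchi χ' u₁ + b • tchi χ' u₂) →
  ¬ InjectiveOn (finrank K H) χ unitsHom T →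
  ∀ ℓ₁ ∈ T, ∀ ℓ₂ ∈ T, Phi j ℓ₁ (tchi χ' u₁) * Phi j ℓ₂ (tchi χ' u₂) -
    Phi j ℓ₂ (tchi χ' u₁) * Phi j ℓ₁ (tchi χ' u₂) = 0

/-- **GA6** (criterion for CM fields). `Ω` is an algebraic closure of `ℚ`, `σ, θ : H → Ω` and
`conj ∘ ι' ∘ σ = ι' ∘ θ` for ALL embeddings `ι'` of `Ω` in `ℂ`. If `g` is an automorphism of `Ω`
trivial on `σ(H)`, the hypothesis for `ι' ∘ g` gives `ι' g θ = conj ι' g σ = conj ι' σ = ι' θ`, so
`g θ = θ`; so `θ(H) ⊆ σ(H)` and `θ = σ ∘ c` for an automorphism `c` of `H`. Every embedding `ρ` of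
`H` in `ℂ` is some `ι' ∘ σ`, so `conj ∘ ρ = ρ ∘ c` for all `ρ`. Hence `c ^ 2 = 1`, `c ≠ 1`, the
maximal real subfield of `H` is the fixed field of `c`, and `H` is CM. -/
def S_GA6 : Prop := ∀ (H : Type u) [Field H] [NumberField H] [IsTotallyComplex H] (Ω : Type v)
  [Field Ω] [CharZero Ω] [IsAlgClosed Ω] [Algebra.IsAlgebraic ℚ Ω] (σ θ : H →+* Ω),
  (∀ ι' : Ω →+* ℂ, ComplexEmbedding.conjugate (ι'.comp σ) = ι'.comp θ) → IsCMField H

/-- **GA7** (the Galois element `h`). Two embeddings of `H` in `Ω` with the same restriction to `K`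
differ by an element of the Galois group of `H/K` (normality; count or `AlgHom` lifting). -/
def S_GA7 : Prop := ∀ (K : Type u) [Field K] (H : Type v) [Field H] [Algebra K H]
  [FiniteDimensional K H] [IsGalois K H] (A : Type w) [Field A] (σ θ : H →+* A),
  σ.comp (algebraMap K H) = θ.comp (algebraMap K H) →
  ∃ h : H ≃ₐ[K] H, θ = σ.comp (h : H →+* H)

end Pool.Agent.Helper17.SL
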