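import Pool.Agent.Helper17.SL.Defs

/-!
# Project SL: from the general theorem S_GEN to S_SIX, S_BB, S_TRANS

Paper proof: PAPER.md, sections 4, 5, 6.
-/

namespace Pool.Agent.Helper17.SL

open Pool.Agent.Helper51.SigLeo Pool.Agent.Helper51.SixExp NumberField Module

universe u v w x y z

/-- **SUB** (submodularity). `W` is a vector space over a field `E ⊇ ℚ`, finite dimensional over
`ℚ`; `f` is a submodular function on the `ℚ`-subspaces, invariant under `Eˣ`. If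
`a dim A ≤ b f(A)` for all `E`-subspaces `A`, then for all `ℚ`-subspaces. Proof: let
`g(A) = b f(A) - a dim A` (in `ℤ`); it is submodular, invariant under `Eˣ` and bounded below. The
minimizers of `g` are closed under `⊔`, so a minimizer `A₀` of maximal dimension contains all of
them, in particular the `c A₀`; so `A₀` is an `E`-subspace and `0 ≤ g(A₀) ≤ g(A)` for all `A`. -/
def S_SUB : Prop := ∀ (E : Type u) [Field E] [CharZero E] (W : Type v) [AddCommGroup W]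
  [Module E W] [Module ℚ W] [IsScalarTower ℚ E W] [FiniteDimensional ℚ W]
  (f : Submodule ℚ W → ℕ) (a b : ℕ),
  (∀ A B, f (A ⊔ B) + f (A ⊓ B) ≤ f A + f B) →
  (∀ (c : E) (A : Submodule ℚ W), c ≠ 0 →
    f (A.map ((LinearMap.lsmul E W c).restrictScalars ℚ)) = f A) →
  (∀ A : Submodule E W, a * finrank ℚ (A.restrictScalars ℚ) ≤ b * f (A.restrictScalars ℚ)) →
  ∀ A : Submodule ℚ W, a * finrank ℚ A ≤ b * f A

/-- The conjugate coordinates `a ↦ σ(a_κ)`, `σ ≠ lam`, on `E ^ d`. -/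
noncomputable def conjX {E Ω : Type*} [Field E] [CharZero E] [Field Ω] [CharZero Ω]
    (lam : E →+* Ω) (d : ℕ) (q : {σ : E →+* Ω // σ ≠ lam} × Fin d) : (Fin d → E) →ₗ[ℚ] Ω where
  toFun a := q.1.1 (a q.2)
  map_add' a b := by simp
  map_smul' c a := by
    rw [Pi.smul_apply, RingHom.id_apply, Rat.smul_def, Rat.smul_def, map_mul, map_ratCast]

/-- **LA** (uses SUB). For every `ℚ`-subspace `A` of `E ^ d`, with `φ = [E : ℚ]`,
`(φ - 1) dim_ℚ A ≤ φ dim_Ω (span of the (σ(a_κ))_{σ ≠ lam, κ}, a ∈ A)`. Proof: `f(A)` = the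
dimension of the span is submodular and invariant under `Eˣ` (the coordinates are multiplied by
`σ(c)`); apply SUB with `a = φ - 1`, `b = φ`. If `A` is an `E`-subspace of dimension `w` over `E`,
`dim_ℚ A = φ w` and `f(A) = (φ - 1) w`: if `w_1, …, w_w` is a basis of `A`, the `(σ(c))_{σ ≠ lam}`,
`c ∈ E`, span `Ω ^ (φ - 1)` (the square matrix `σ(e_t)`, `e_t` a `ℚ`-basis of `E`, is invertible),
so the span contains, for all `σ₀ ≠ lam` and `i`, the vector with components `σ₀(w_i)` at `σ₀` and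
`0` at the other `σ`; these `(φ - 1) w` vectors are independent. -/
def S_LA : Prop := ∀ (E : Type u) [Field E] [NumberField E] (Ω : Type v) [Field Ω] [CharZero Ω]
  [IsAlgClosed Ω] (lam : E →+* Ω) (d : ℕ) (A : Submodule ℚ (Fin d → E)),
  (finrank ℚ E - 1) * finrank ℚ A ≤ finrank ℚ E * finrank Ω (spanX (conjX lam d) A)

/-- **LB** (uses SUB). `B : E ^ d × E ^ l → k` is `ℚ`-bilinear, `B(e a, c) = B(a, e c)`, and
if `B(e a, c) = 0` for all `e ∈ E` then `a = 0` or `c = 0`. Then for all `ℚ`-subspaces `A` of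
`E ^ d`, `d dim {c | B(A, c) = 0} ≤ l (d φ - dim A)`. Proof: SUB for `W = E ^ l`,
`f(W') = d φ - dim {a | B(a, W') = 0}` (submodular, invariant), with the constants `d`, `l`: for
an `E`-subspace `W' ≠ 0`, `{a | B(a, W') = 0} = 0`, so `f(W') = d φ` and `dim W' ≤ l φ`. Then take
`W' = {c | B(A, c) = 0}`; `A ⊆ {a | B(a, W') = 0}`. -/
def S_LB : Prop := ∀ (E : Type u) [Field E] [NumberField E] (k : Type v) [Field k] [CharZero k]
  (d l : ℕ) (B : (Fin d → E) →ₗ[ℚ] (Fin l → E) →ₗ[ℚ] k),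
  (∀ (e : E) a c, B (e • a) c = B a (e • c)) →
  (∀ a c, (∀ e : E, B (e • a) c = 0) → a = 0 ∨ c = 0) →
  ∀ (A : Submodule ℚ (Fin d → E)) (A' : Submodule ℚ (Fin l → E)),
    (∀ c ∈ A', ∀ a ∈ A, B a c = 0) →
    d * finrank ℚ A' + l * finrank ℚ A ≤ l * (d * finrank ℚ E)

/-- The form `B(a, c) = ∑ Tr(a_i c_j b_ijr) x_ijr`. -/
noncomputable def Bform {E k : Type*} [Field E] [NumberField E] [Field k] [CharZero k] {d l : ℕ}
    {R : Type*} [Fintype R] (b : Fin d → Fin l → R → E) (x : Fin d → Fin l → R → k) :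
    (Fin d → E) →ₗ[ℚ] (Fin l → E) →ₗ[ℚ] k :=
  LinearMap.mk₂ ℚ (fun a c ↦ ∑ i, ∑ j, ∑ r, (Algebra.trace ℚ E (a i * c j * b i j r)) • x i j r)
    (fun a a' c ↦ by simp [add_mul, add_smul, Finset.sum_add_distrib])
    (fun q a c ↦ by simp [mul_smul, Finset.smul_sum])
    (fun a c c' ↦ by simp [mul_add, add_mul, add_smul, Finset.sum_add_distrib])
    (fun q a c ↦ by simp [mul_smul, Finset.smul_sum])

/-- **SA** (the form in terms of the embeddings): the trace is the sum of the embeddings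
(`trace_eq_sum_embeddings`). -/
def S_SA : Prop := ∀ (E : Type u) [Field E] [NumberField E] (Ω : Type v) [Field Ω] [CharZero Ω]
  [IsAlgClosed Ω] (k : Type w) [Field k] [CharZero k] (ι : Ω →+* k) (d l : ℕ) (R : Type x)
  [Fintype R] (b : Fin d → Fin l → R → E) (x : Fin d → Fin l → R → k) (a : Fin d → E)
  (c : Fin l → E),
  Bform b x a c = ∑ σ : E →+* Ω, ∑ i, ∑ j, ι (σ (a i)) * ι (σ (c j)) *
    ∑ r, ι (σ (b i j r)) * x i j r

/-- **SB**: if `B(e a, c) = 0` for all `e ∈ E` then `∑ lam(a_i) lam(c_j) M_ij = 0` where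
`M_ij = ∑ lam(b_ijr) x_ijr`. Proof: `z = ∑_t Tr(z e'_t) e_t` for dual bases `e_t`, `e'_t` of `E`
(trace form), so `∑ lam(a_i c_j b_ijr) x_ijr = ∑_t lam(e_t) B(e'_t a, c)`. -/
def S_SB : Prop := ∀ (E : Type u) [Field E] [NumberField E] (k : Type w) [Field k] [CharZero k]
  (lam : E →+* k) (d l : ℕ) (R : Type x) [Fintype R] (b : Fin d → Fin l → R → E)
  (x : Fin d → Fin l → R → k) (a : Fin d → E) (c : Fin l → E),
  (∀ e : E, Bform b x (e • a) c = 0) →
  ∑ i, ∑ j, lam (a i) * lam (c j) * ∑ r, lam (b i j r) * x i j r = 0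

/-- **SC**: the numbers `x` with `IsLog x` are a `ℚ`-subspace of `k`. -/
def S_SC : Prop := ∀ (p : ℕ) [Fact p.Prime] (k : Type v) [NormedField k] [NormedAlgebra ℚ_[p] k]
  [IsUltrametricDist k] [CharZero k] (Ω : Type u) [Field Ω] [CharZero Ω] (ι : Ω →+* k)
  (Λ : IwasawaLog p k), IsLog Λ ι 0 ∧ (∀ x y, IsLog Λ ι x → IsLog Λ ι y → IsLog Λ ι (x + y)) ∧
  (∀ (q : ℚ) x, IsLog Λ ι x → IsLog Λ ι (q • x))

/-- **SIX** (uses GEN, LA, LB, SA, SB, SC): the theorem S_SIX of Defs. Suppose that neither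
conclusion holds. `M ≠ 0`, so `M_ij = x_i y_j` by the vanishing of the minors. `V = E ^ d`,
`I = {σ ≠ lam} × Fin d`, `X = conjX`, `J` = index set of a `ℚ`-basis `c_j` of `E ^ l`,
`Y_j(a) = Bform b x a c_j` with `x_ijr = Λ(ι(y_ijr))`. By SA all the functions `ι ∘ X`, `Y_j` are in
the span of the `ι ∘ X` (`d (φ - 1)` functions) and of `a ↦ ∑ ι(lam(a_i)) x_i`:
`N = d (φ - 1) + 1`. Choose `β` with `1 / (l φ) < β < d / ((d + l) φ)`, `β < 1`. GEN gives `A ⊆ V`, of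
codimension `r'`; LA gives `φ n' ≤ (φ - 1) r'`, LB (nondegenerate by SB and the assumption) gives
`d m' ≤ l r'` (`relY Y A` is isomorphic to the annihilator of `A` in `E ^ l`), so
`(1/φ - β (1 + l/d)) r' ≤ 0`, `r' = 0`, `n' = m' = 0`: contradiction. -/
def S_SIXA : Prop := S_SIX.{u, v, w, x}

/-- **BB** (uses GEN): the theorem S_BB of Defs. `n = 0` is trivial and `n = 1` easy. For `n ≥ 2`
suppose that some `x_i ≠ 0`. `V = ℚ ^ n`, `I` = the indices `i ≠ n`, `X_i(a) = a_i - (e_i / e_n) a_n`,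
one `Y(a) = ∑ a_i x_i`, which is `∑_{i ≠ n} ι(X_i(a)) x_i` since `∑ ι(e_i) x_i = 0`. So `N = n - 1`.
Take `0 < β < 1 / 2`. GEN gives `A ⊆ V`. If `A ≠ V` then `dim_Ω span X(A) = dim_ℚ A`: there is
`0 ≠ q ∈ ℚ ^ n` with `∑ q_i a_i = 0` on `A`, the kernel of `X` on `Ω ^ n` is the line of
`(e_1, …, e_n)` and `∑ q_i e_i ≠ 0`, so this line meets the `Ω`-span of `A` in `0`. So
`n' = r' - 1`, `m' ≤ 1`, `(1 - β) r' ≤ r' - 1 + β m'`, so `1 ≤ β (r' + m')`: choose
`β < 1 / (n + 1)`. If `A = V` then `n' = 0` (the kernel is a line), so `m' = 1` and `Y = 0`. -/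
def S_BBA : Prop := S_BB.{u, v}

/-- **TRANS** (uses BB): the theorem S_TRANS of Defs. Let `e_t` be a `ℚ`-basis of `E`,
`b_r = ∑_t q_{rt} e_t`, `q_{rt} = m_{rt} / N` with integers `m_{rt}`, `N > 0`. Then
`∑_t ι(lam(e_t)) Λ(ι(∏_r y_r ^ m_{rt})) = 0`, so by BB `Λ(ι(∏_r y_r ^ m_{rt})) = 0` for all `t`
and `∏_r y_r ^ m_{rt}` is a root of unity (`torsion_of_log_eq_zero`), so
`∑_r m_{rt} log |ι'(y_r)| = 0`. -/
def S_TRANSA : Prop := S_TRANS.{u, v, w, x}

end Pool.Agent.Helper17.SL
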