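import Pool.Agent.Helper51.SixExp.UnitsAlg

/-!
# Project SL (MP_fc6b1e_nt): the top level statements

`p` is a prime, `k` is a complete ultrametric field over `ℚ_p` (for instance `ℂ_p`), `Ω` is an
algebraic closure of `ℚ` with an embedding `ι : Ω → k`, and `Λ` is Iwasawa's logarithm on `kˣ`.
-/

namespace Pool.Agent.Helper17.SL

open Pool.Agent.Helper51.SigLeo Pool.Agent.Helper51.SixExp NumberField Module

universe u v w x y z

/-- `x` is a rational multiple of the `p`-adic logarithm of an algebraic unit. -/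
def IsLog {p : ℕ} {k : Type*} [NormedField k] {Ω : Type*} [Field Ω] [CharZero Ω]
    (Λ : IwasawaLog p k) (ι : Ω →+* k) (x : k) : Prop :=
  ∃ N : ℕ, 0 < N ∧ ∃ u : Ωˣ, IsUnitAlg u ∧ (N : k) * x = Λ.toFun (Units.map (ι : Ω →* k) u)

/-- The rational linear relations between the restrictions to `E` of the maps `Y j`. -/
def relY {k : Type*} [Field k] [CharZero k] {V : Type*} [AddCommGroup V] [Module ℚ V] {J : Type*}
    [Fintype J] (Y : J → V →ₗ[ℚ] k) (E : Submodule ℚ V) : Submodule ℚ (J → ℚ) where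
  carrier := {s | ∀ v ∈ E, ∑ j, s j • Y j v = 0}
  add_mem' := fun {a b} ha hb v hv ↦ by
    simp only [Pi.add_apply, add_smul, Finset.sum_add_distrib, ha v hv, hb v hv, add_zero]
  zero_mem' := fun v _ ↦ by simp
  smul_mem' := fun c s hs v hv ↦ by
    simp only [Pi.smul_apply, smul_eq_mul, mul_smul, ← Finset.smul_sum, hs v hv, smul_zero]

/-- The `Ω`-span of the vectors `(X i v)_i`, `v ∈ E`. -/
def spanX {Ω : Type*} [Field Ω] [CharZero Ω] {V : Type*} [AddCommGroup V] [Module ℚ V] {I : Type*}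
    (X : I → V →ₗ[ℚ] Ω) (E : Submodule ℚ V) : Submodule Ω (I → Ω) :=
  Submodule.span Ω {z | ∃ v ∈ E, z = fun i ↦ X i v}

/-- **S_GEN**: the general theorem of `p`-adic transcendence (linear group `𝔾_a^I × 𝔾_m^J`). Let
`V` be a finite dimensional rational vector space, let `X i : V → Ω` and `Y j : V → k` be linear
maps, the values of the `Y j` being logarithms of algebraic units; suppose that all these maps
are in a `k`-vector space of dimension `N ≥ 1` of functions `V → k`. If `0 < β < 1` and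
`N < |I| + β |J|`, there is a subspace `E` of `V` such that, if `r'` is its codimension, `n'` the
codimension of the span of `X(E)` in `Ω^I`, `m'` the dimension of the space of rational relations
between the `Y j` on `E`, then `(n', m') ≠ (0, 0)` and `(1 - β) r' ≤ n' + β m'`. -/
def S_GEN : Prop := ∀ (p : ℕ) [Fact p.Prime] (k : Type v) [NormedField k] [NormedAlgebra ℚ_[p] k]
  [IsUltrametricDist k] [CompleteSpace k] [CharZero k] (Ω : Type u) [Field Ω] [CharZero Ω]
  [Algebra.IsAlgebraic ℚ Ω] (ι : Ω →+* k) (Λ : IwasawaLog p k)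
  (V : Type w) [AddCommGroup V] [Module ℚ V] [FiniteDimensional ℚ V] (I : Type x) (J : Type y)
  [Fintype I] [Fintype J] (X : I → V →ₗ[ℚ] Ω) (Y : J → V →ₗ[ℚ] k) (N : ℕ) (β : ℝ),
  (∀ j v, IsLog Λ ι (Y j v)) →
  0 < N →
  finrank k (Submodule.span k ((Set.range fun i ↦ (fun v ↦ ι (X i v) : V → k)) ∪
    (Set.range fun j ↦ (fun v ↦ Y j v : V → k)))) ≤ N →
  0 < β → β < 1 → (N : ℝ) < Fintype.card I + β * Fintype.card J →
  ∃ E : Submodule ℚ V, (finrank Ω (spanX X E) ≠ Fintype.card I ∨ finrank ℚ (relY Y E) ≠ 0) ∧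
    (1 - β) * (finrank ℚ V - finrank ℚ E : ℝ) ≤
      (Fintype.card I - finrank Ω (spanX X E) : ℝ) + β * finrank ℚ (relY Y E)

/-- **S_SIX**: the strong `p`-adic six exponentials theorem with coefficients in a number field
`E`. -/
def S_SIX : Prop := ∀ (p : ℕ) [Fact p.Prime] (k : Type v) [NormedField k] [NormedAlgebra ℚ_[p] k]
  [IsUltrametricDist k] [CompleteSpace k] [CharZero k] (Ω : Type u) [Field Ω] [CharZero Ω]
  [Algebra.IsAlgebraic ℚ Ω] [IsAlgClosed Ω] (ι : Ω →+* k) (Λ : IwasawaLog p k)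
  (E : Type w) [Field E] [NumberField E] (lam : E →+* Ω) (d l : ℕ) (R : Type x) [Fintype R]
  (b : Fin d → Fin l → R → E) (y : Fin d → Fin l → R → Ωˣ) (M : Fin d → Fin l → k),
  (∀ i j r, IsUnitAlg (y i j r)) →
  (∀ i j, M i j = ∑ r, ι (lam (b i j r)) * Λ.toFun (Units.map (ι : Ω →* k) (y i j r))) →
  d + l < d * l → (∀ i i' j j', M i j * M i' j' = M i j' * M i' j) →
  (∃ a : Fin d → E, a ≠ 0 ∧ ∀ j, ∑ i, ι (lam (a i)) * M i j = 0) ∨
  (∃ c : Fin l → E, c ≠ 0 ∧ ∀ i, ∑ j, ι (lam (c j)) * M i j = 0)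

/-- **S_BB**: the `p`-adic theorem of Baker and Brumer. -/
def S_BB : Prop := ∀ (p : ℕ) [Fact p.Prime] (k : Type v) [NormedField k] [NormedAlgebra ℚ_[p] k]
  [IsUltrametricDist k] [CompleteSpace k] [CharZero k] (Ω : Type u) [Field Ω] [CharZero Ω]
  [Algebra.IsAlgebraic ℚ Ω] (ι : Ω →+* k) (Λ : IwasawaLog p k) (n : ℕ) (e : Fin n → Ω)
  (x : Fin n → k), LinearIndependent ℚ e → (∀ i, IsLog Λ ι (x i)) → ∑ i, ι (e i) * x i = 0 →
  ∀ i, x i = 0

/-- **S_TRANS**: a linear relation with coefficients in a number field `E` between `p`-adic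
logarithms of algebraic units is also satisfied by all their archimedean logarithms (for all
embeddings of `E` and `Ω` in `ℂ`). -/
def S_TRANS : Prop := ∀ (p : ℕ) [Fact p.Prime] (k : Type v) [NormedField k]
  [NormedAlgebra ℚ_[p] k] [IsUltrametricDist k] [CompleteSpace k] [CharZero k] (Ω : Type u)
  [Field Ω] [CharZero Ω] [Algebra.IsAlgebraic ℚ Ω] (ι : Ω →+* k) (Λ : IwasawaLog p k)
  (E : Type w) [Field E] [NumberField E] (lam : E →+* Ω) (R : Type x) [Fintype R] (b : R → E)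
  (y : R → Ωˣ), (∀ r, IsUnitAlg (y r)) →
  ∑ r, ι (lam (b r)) * Λ.toFun (Units.map (ι : Ω →* k) (y r)) = 0 →
  ∀ (ε : E →+* ℂ) (ι' : Ω →+* ℂ), ∑ r, ε (b r) * ((Real.log ‖ι' (y r : Ω)‖ : ℝ) : ℂ) = 0

end Pool.Agent.Helper17.SL
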