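import Pool.Agent.Helper17.SL.Defs
import Pool.Agent.Helper17.SL.GoalsZE

/-!
# Project SL: the rank bound (interface) and the tools for the assembly of S_GEN
-/

namespace Pool.Agent.Helper17.SL

open Pool.Agent.Helper51.SigLeo Pool.Agent.Helper51.SixExp NumberField Module

universe u v w x y z

/-- The monomial of exponent `d` at the point attached to `a`. -/
noncomputable def Dat.mono {K I J : Type*} [Field K] [Fintype I] [Fintype J] {g : ℕ}
    (D : Dat K I J g) (d : I ⊕ J →₀ ℕ) (a : Fin g → ℤ) : K :=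
  (∏ i, D.X a i ^ d (Sum.inl i)) * ∏ j, D.Y a j ^ d (Sum.inr j)

/-- **S_RB** (rank bound by interpolation determinants, with the normalisation). Under the
hypotheses of S_GEN there are a `ℚ`-basis `e` of `V` and a homomorphism `ℤ ^ g → Ω ^ I × (Ωˣ) ^ J`,
given by the `X i` and by units `Y a j` whose logarithms are the `M Y j` (so that relations
between the `Y a j` and between their logarithms are the same), and a constant `C`, such that for
`T, B, S B ≤ U` every nonzero determinant of order `l` of monomials in `F_1` (weights `T`, `S`) at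
points of the box `|a r| ≤ B` satisfies `l ≤ C (U log U) ^ N`. -/
def S_RB : Prop := ∀ (p : ℕ) [Fact p.Prime] (k : Type v) [NormedField k] [NormedAlgebra ℚ_[p] k]
  [IsUltrametricDist k] [CompleteSpace k] [CharZero k] (Ω : Type u) [Field Ω] [CharZero Ω]
  [Algebra.IsAlgebraic ℚ Ω] (ι : Ω →+* k) (Λ : IwasawaLog p k)
  (V : Type w) [AddCommGroup V] [Module ℚ V] [FiniteDimensional ℚ V] (I : Type x) (J : Type y)
  [Fintype I] [Fintype J] (X : I → V →ₗ[ℚ] Ω) (Y : J → V →ₗ[ℚ] k) (N : ℕ),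
  (∀ j v, IsLog Λ ι (Y j v)) →
  0 < N →
  finrank k (Submodule.span k ((Set.range fun i ↦ (fun v ↦ ι (X i v) : V → k)) ∪
    (Set.range fun j ↦ (fun v ↦ Y j v : V → k)))) ≤ N →
  ∃ (g : ℕ) (e : Basis (Fin g) ℚ V) (D : Dat Ω I J g) (C : ℝ), 0 < C ∧
    (∀ a i, D.X a i = X i (∑ r, (a r : ℚ) • e r)) ∧
    (∀ a (s : J → ℤ), ∏ j, D.Y a j ^ s j = 1 ↔ ∑ j, (s j : ℚ) • Y j (∑ r, (a r : ℚ) • e r) = 0) ∧
    ∀ (U T S B l : ℕ) (t : Fin l → (I ⊕ J →₀ ℕ)) (a : Fin l → Fin g → ℤ),
      2 ≤ U → 1 ≤ S → 1 ≤ T → T ≤ U → B ≤ U → S * B ≤ U → (∀ i, wt T S (t i) ≤ S * T) →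
      (∀ j r, |a j r| ≤ B) → Matrix.det (fun i j ↦ D.mono (t i) (a j)) ≠ 0 →
      (l : ℝ) ≤ C * (U * Real.log U) ^ N

/-- **DETP**: linearly independent functions on a set have a nonzero determinant of values. -/
def S_DETP : Prop := ∀ (K : Type u) [Field K] (α : Type v) (l : ℕ) (φ : Fin l → α → K),
  LinearIndependent K φ → ∃ a : Fin l → α, Matrix.det (fun i j ↦ φ i (a j)) ≠ 0

/-- **RK1**: the rank of a subgroup of `ℤ ^ g` is the dimension of its rational span. -/
def S_RK1 : Prop := ∀ (V : Type w) [AddCommGroup V] [Module ℚ V] (g : ℕ) (e : Basis (Fin g) ℚ V)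
  (G : Submodule ℤ (Fin g → ℤ)),
  finrank ℚ (Submodule.span ℚ {v : V | ∃ a ∈ G, v = ∑ r, (a r : ℚ) • e r}) = finrank ℤ G

/-- **RK2**: the integral points of a rational subspace of `ℚ ^ J` are a subgroup of rank equal to
the dimension. -/
def S_RK2 : Prop := ∀ (J : Type y) [Fintype J] (W : Submodule ℚ (J → ℚ))
  (G : Submodule ℤ (J → ℤ)), (∀ s : J → ℤ, s ∈ G ↔ (fun j ↦ (s j : ℚ)) ∈ W) →
  finrank ℤ G = finrank ℚ W

end Pool.Agent.Helper17.SL
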